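import Pool.Agent.MRG.Defs

/-!
MODULE MRG-Ord (est. 1.5 h).  If the minimum of `m x + (j+1) m y` over the support of `f` is attained
at only one pair `(m x, m y)`, then `f` does not vanish when the pair `x`, `y` is merged (look at the
order at the point `- c_j` of the line).

Proof.  Substitute `X x = T - c_j` (a polynomial in `T` over the polynomial ring) after merging, and
look at the coefficient of `T^w0`, `w0 = m0 x + (j+1) m0 y`.
-/

set_option autoImplicit false

namespace Pool.Agent.MRG

open MvPolynomial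

/-- The product `∏_(i < r, i ≠ j) (T + (c_i - c_j))`. -/
private noncomputable def pA {K : Type*} [Field K] (n : ℕ) (c : ℕ → K) (r j : ℕ) :
    Polynomial (MvPolynomial (Fin n) K) :=
  ∏ i ∈ (Finset.range r).erase j, (Polynomial.X + Polynomial.C (C (c i - c j)))

/-- The product `∏_(i < r, i ≠ j) (T + (c_i - c_j))^(i+1)`. -/
private noncomputable def pB {K : Type*} [Field K] (n : ℕ) (c : ℕ → K) (r j : ℕ) :
    Polynomial (MvPolynomial (Fin n) K) :=
  ∏ i ∈ (Finset.range r).erase j, (Polynomial.X + Polynomial.C (C (c i - c j))) ^ (i + 1)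

private theorem pA_zero {K : Type*} [Field K] {n : ℕ} (c : ℕ → K) (r : ℕ)
    (hc : Set.InjOn c (Finset.range r : Set ℕ)) (j : ℕ) (hj : j < r) :
    ∃ a : K, a ≠ 0 ∧ (pA n c r j).coeff 0 = C a := by
  refine ⟨∏ i ∈ (Finset.range r).erase j, (c i - c j), ?_, ?_⟩
  · rw [Finset.prod_ne_zero_iff]
    intro i hi
    rw [Finset.mem_erase] at hi
    intro h0
    apply hi.1
    apply hc
    · exact_mod_cast hi.2
    · simpa using hj
    · exact sub_eq_zero.mp h0
  · rw [pA, Polynomial.coeff_zero_eq_eval_zero, Polynomial.eval_prod, map_prod]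
    refine Finset.prod_congr rfl fun i _ => ?_
    simp

private theorem pB_zero {K : Type*} [Field K] {n : ℕ} (c : ℕ → K) (r : ℕ)
    (hc : Set.InjOn c (Finset.range r : Set ℕ)) (j : ℕ) (hj : j < r) :
    ∃ a : K, a ≠ 0 ∧ (pB n c r j).coeff 0 = C a := by
  refine ⟨∏ i ∈ (Finset.range r).erase j, (c i - c j) ^ (i + 1), ?_, ?_⟩
  · rw [Finset.prod_ne_zero_iff]
    intro i hi
    rw [Finset.mem_erase] at hi
    apply pow_ne_zero
    intro h0
    apply hi.1
    apply hc
    · exact_mod_cast hi.2
    · simpa using hj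
    · exact sub_eq_zero.mp h0
  · rw [pB, Polynomial.coeff_zero_eq_eval_zero, Polynomial.eval_prod, map_prod]
    refine Finset.prod_congr rfl fun i _ => ?_
    simp

/-- The substitution `X x = T - c_j`. -/
private noncomputable def psi {K : Type*} [Field K] {n : ℕ} (c : ℕ → K) (j : ℕ) (x : Fin n) :
    MvPolynomial (Fin n) K →ₐ[K] Polynomial (MvPolynomial (Fin n) K) :=
  aeval (fun i => if i = x then Polynomial.X - Polynomial.C (C (c j)) else Polynomial.C (X i))

/-- The composed substitution. -/
private noncomputable def gg {K : Type*} [Field K] {n : ℕ} (c : ℕ → K) (r j : ℕ) (x y : Fin n) :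
    Fin n → Polynomial (MvPolynomial (Fin n) K) :=
  fun i => if i = x then Polynomial.X * pA n c r j
    else if i = y then Polynomial.X ^ (j + 1) * pB n c r j else Polynomial.C (X i)

private theorem psi_mg {K : Type*} [Field K] {n : ℕ} (c : ℕ → K) (r : ℕ) (x y : Fin n)
    (f : MvPolynomial (Fin n) K) (j : ℕ) (hj : j < r) :
    psi c j x (mg c r x y f) = aeval (gg c r j x y) f := by
  rw [mg, ← AlgHom.comp_apply]
  congr 1
  apply MvPolynomial.algHom_ext
  intro i
  have hjr : j ∈ Finset.range r := Finset.mem_range.mpr hj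
  have hX : psi c j x (X x) = Polynomial.X - Polynomial.C (C (c j)) := by
    rw [psi, aeval_X, if_pos rfl]
  have hC : ∀ a : K, psi c j x (C a) = Polynomial.C (C a) := by
    intro a
    rw [psi, ← MvPolynomial.algebraMap_eq, AlgHom.commutes]
    rfl
  rw [AlgHom.comp_apply, aeval_X, aeval_X, ex, gg]
  by_cases hx : i = x
  · rw [if_pos hx, if_pos hx, cA, map_prod, ← Finset.mul_prod_erase _ _ hjr, pA]
    congr 1
    · rw [map_add, hX, hC]; ring
    · refine Finset.prod_congr rfl fun i _ => ?_
      rw [map_add, hX, hC, map_sub, map_sub]; ring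
  · rw [if_neg hx, if_neg hx]
    by_cases hy : i = y
    · rw [if_pos hy, if_pos hy, cB, map_prod, ← Finset.mul_prod_erase _ _ hjr, pB]
      congr 1
      · rw [map_pow, map_add, hX, hC]; ring
      · refine Finset.prod_congr rfl fun i _ => ?_
        rw [map_pow, map_add, hX, hC, map_sub, map_sub]; ring
    · rw [if_neg hy, if_neg hy, psi, aeval_X, if_neg hx]

private theorem prod_gg {K : Type*} [Field K] {n : ℕ} (c : ℕ → K) (r j : ℕ) (x y : Fin n)
    (hxy : x ≠ y) (m : Fin n →₀ ℕ) :
    ∏ i, gg c r j x y i ^ m i =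
      Polynomial.X ^ (m x + (j + 1) * m y) *
        (pA n c r j ^ m x * pB n c r j ^ m y *
          Polynomial.C (monomial ((m.erase x).erase y) (1 : K))) := by
  classical
  have hy : y ∈ Finset.univ.erase x := Finset.mem_erase.mpr ⟨fun h => hxy h.symm, Finset.mem_univ _⟩
  have h1 : (monomial ((m.erase x).erase y) (1 : K) : MvPolynomial (Fin n) K) =
      ∏ i ∈ (Finset.univ.erase x).erase y, X i ^ m i := by
    rw [MvPolynomial.monomial_eq, C_1, one_mul, Finsupp.prod_fintype _ _ (fun i => pow_zero _)]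
    rw [← Finset.mul_prod_erase _ _ (Finset.mem_univ x), ← Finset.mul_prod_erase _ _ hy]
    have e1 : ((m.erase x).erase y) x = 0 := by
      rw [Finsupp.erase_ne hxy, Finsupp.erase_same]
    have e2 : ((m.erase x).erase y) y = 0 := Finsupp.erase_same
    rw [e1, e2, pow_zero, pow_zero, one_mul, one_mul]
    refine Finset.prod_congr rfl fun i hi => ?_
    rw [Finset.mem_erase, Finset.mem_erase] at hi
    rw [Finsupp.erase_ne hi.1, Finsupp.erase_ne hi.2.1]
  rw [← Finset.mul_prod_erase _ _ (Finset.mem_univ x), ← Finset.mul_prod_erase _ _ hy, h1, map_prod]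
  have h2 : ∏ i ∈ (Finset.univ.erase x).erase y, gg c r j x y i ^ m i =
      ∏ i ∈ (Finset.univ.erase x).erase y,
        (Polynomial.C (X i ^ m i) : Polynomial (MvPolynomial (Fin n) K)) := by
    refine Finset.prod_congr rfl fun i hi => ?_
    rw [Finset.mem_erase, Finset.mem_erase] at hi
    rw [gg, if_neg hi.2.1, if_neg hi.1, Polynomial.C_pow]
  have hgx : gg c r j x y x = Polynomial.X * pA n c r j := by rw [gg, if_pos rfl]
  have hgy : gg c r j x y y = Polynomial.X ^ (j + 1) * pB n c r j := by
    rw [gg, if_neg (fun h => hxy h.symm), if_pos rfl]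
  rw [h2, hgx, hgy, mul_pow, mul_pow, ← pow_mul, pow_add]
  ring

theorem mg_ne_zero {K : Type*} [Field K] {n : ℕ} (c : ℕ → K) (r : ℕ)
    (hc : Set.InjOn c (Finset.range r : Set ℕ)) (x y : Fin n) (hxy : x ≠ y)
    (f : MvPolynomial (Fin n) K) (j : ℕ) (hj : j < r) (m0 : Fin n →₀ ℕ) (hm0 : m0 ∈ f.support)
    (hmin : ∀ m ∈ f.support, m0 x + (j + 1) * m0 y ≤ m x + (j + 1) * m y)
    (huniq : ∀ m ∈ f.support, m x + (j + 1) * m y = m0 x + (j + 1) * m0 y →
      m x = m0 x ∧ m y = m0 y) :
    mg c r x y f ≠ 0 := by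
  classical
  intro h0
  obtain ⟨a, ha, hA⟩ := pA_zero (n := n) c r hc j hj
  obtain ⟨b, hb, hB⟩ := pB_zero (n := n) c r hc j hj
  have h1 : aeval (gg c r j x y) f = 0 := by
    rw [← psi_mg c r x y f j hj, h0, map_zero]
  rw [aeval_def, eval₂_eq'] at h1
  have h2 := congrArg (fun P : Polynomial (MvPolynomial (Fin n) K) =>
    coeff ((m0.erase x).erase y) (P.coeff (m0 x + (j + 1) * m0 y))) h1
  simp only [Polynomial.finsetSum_coeff, Polynomial.coeff_zero, coeff_zero, coeff_sum] at h2
  rw [Finset.sum_eq_single_of_mem m0 hm0] at h2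
  · rw [prod_gg c r j x y hxy] at h2
    have e1 : (algebraMap K (Polynomial (MvPolynomial (Fin n) K))) (coeff m0 f) =
        Polynomial.C (C (coeff m0 f)) := rfl
    rw [e1, mul_left_comm, Polynomial.coeff_X_pow_mul', if_pos le_rfl, Nat.sub_self,
      Polynomial.coeff_C_mul, Polynomial.coeff_mul_C] at h2
    have e2 : (pA n c r j ^ m0 x * pB n c r j ^ m0 y).coeff 0 = C (a ^ m0 x * b ^ m0 y) := by
      rw [Polynomial.mul_coeff_zero, Polynomial.coeff_zero_eq_eval_zero,
        Polynomial.coeff_zero_eq_eval_zero, Polynomial.eval_pow, Polynomial.eval_pow,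
        ← Polynomial.coeff_zero_eq_eval_zero, ← Polynomial.coeff_zero_eq_eval_zero, hA, hB,
        map_mul, map_pow, map_pow]
    rw [e2, coeff_C_mul, coeff_C_mul, coeff_monomial, if_pos rfl, mul_one] at h2
    have h3 : coeff m0 f ≠ 0 := mem_support_iff.mp hm0
    exact mul_ne_zero h3 (mul_ne_zero (pow_ne_zero _ ha) (pow_ne_zero _ hb)) h2
  · intro m hm hne
    rw [prod_gg c r j x y hxy]
    have e1 : (algebraMap K (Polynomial (MvPolynomial (Fin n) K))) (coeff m f) =
        Polynomial.C (C (coeff m f)) := rfl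
    rw [e1, mul_left_comm, Polynomial.coeff_X_pow_mul']
    split_ifs with hle
    · have heq : m x + (j + 1) * m y = m0 x + (j + 1) * m0 y := le_antisymm hle (hmin m hm)
      obtain ⟨ex, ey⟩ := huniq m hm heq
      rw [Polynomial.coeff_C_mul, Polynomial.coeff_mul_C, heq, Nat.sub_self]
      have e2 : (pA n c r j ^ m x * pB n c r j ^ m y).coeff 0 = C (a ^ m x * b ^ m y) := by
        rw [Polynomial.mul_coeff_zero, Polynomial.coeff_zero_eq_eval_zero,
          Polynomial.coeff_zero_eq_eval_zero, Polynomial.eval_pow, Polynomial.eval_pow,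
          ← Polynomial.coeff_zero_eq_eval_zero, ← Polynomial.coeff_zero_eq_eval_zero, hA, hB,
          map_mul, map_pow, map_pow]
      rw [e2, coeff_C_mul, coeff_C_mul, coeff_monomial, if_neg, mul_zero, mul_zero]
      intro he
      apply hne
      ext i
      by_cases hix : i = x
      · rw [hix, ex]
      · by_cases hiy : i = y
        · rw [hiy, ey]
        · have := DFunLike.congr_fun he i
          rw [Finsupp.erase_ne hiy, Finsupp.erase_ne hix, Finsupp.erase_ne hiy,
            Finsupp.erase_ne hix] at this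
          exact this
    · rw [coeff_zero]

end Pool.Agent.MRG
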