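import Pool.Agent.MRG.Hull
import Pool.Agent.MRG.Ord

/-!
MODULE MRG-HullF (est. 0.5 h).  If merging `x`, `y` kills `f ≠ 0` then the support of `f` contains
`r + 1` pairs of exponents of `x`, `y` in triangular position.

`hull` for the set of pairs of exponents, `mg_ne_zero` for the slopes.
-/

set_option autoImplicit false

namespace Pool.Agent.MRG

open MvPolynomial

theorem vertices {K : Type*} [Field K] {n : ℕ} (c : ℕ → K) (r : ℕ)
    (hc : Set.InjOn c (Finset.range r : Set ℕ)) (x y : Fin n) (hxy : x ≠ y)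
    (f : MvPolynomial (Fin n) K) (hf : f ≠ 0) (h0 : mg c r x y f = 0) :
    ∃ a b : Fin (r + 1) → ℕ, (∀ i, ∃ m ∈ f.support, m x = a i ∧ m y = b i) ∧
      ∀ i j, i < j → ∀ m ∈ f.support, ¬ (m x = a i ∧ m y = b j) := by
  classical
  have hne : f.support.Nonempty := MvPolynomial.support_nonempty.2 hf
  obtain ⟨a, b, hab, hn⟩ := hull (f.support.image fun m => (m x, m y)) (hne.image _) r (by
    intro j' hj1 hjr p hp hmin
    obtain ⟨m0, hm0, rfl⟩ := Finset.mem_image.1 hp
    by_contra hcon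
    push Not at hcon
    obtain ⟨j, rfl⟩ : ∃ j, j' = j + 1 := ⟨j' - 1, by omega⟩
    refine mg_ne_zero c r hc x y hxy f j (by omega) m0 hm0 (fun m hm => ?_) (fun m hm he => ?_) h0
    · exact hmin _ (Finset.mem_image_of_mem _ hm)
    · by_contra hne'
      refine hcon (m x, m y) (Finset.mem_image_of_mem _ hm) (fun h => hne' ?_) he
      exact ⟨congrArg Prod.fst h, congrArg Prod.snd h⟩)
  refine ⟨a, b, fun i => ?_, fun i j hij m hm hmm => ?_⟩
  · obtain ⟨m, hm, he⟩ := Finset.mem_image.1 (hab i)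
    exact ⟨m, hm, congrArg Prod.fst he, congrArg Prod.snd he⟩
  · refine hn i j hij (Finset.mem_image.2 ⟨m, hm, ?_⟩)
    rw [hmm.1, hmm.2]

end Pool.Agent.MRG
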