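import Pool.Agent.MRG.Defs

/-!
MODULE MRG-Nat.  Naturality of the point maps and evaluation of merged polynomials.
-/

set_option autoImplicit false

namespace Pool.Agent.MRG

open MvPolynomial

theorem map_cA {R S : Type*} [CommSemiring R] [CommSemiring S] (φ : R →+* S) (c : ℕ → R) (r : ℕ)
    (z : R) : φ (cA c r z) = cA (fun j => φ (c j)) r (φ z) := by
  simp only [cA, map_prod, map_add]

theorem map_cB {R S : Type*} [CommSemiring R] [CommSemiring S] (φ : R →+* S) (c : ℕ → R) (r : ℕ)
    (z : R) : φ (cB c r z) = cB (fun j => φ (c j)) r (φ z) := by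
  simp only [cB, map_prod, map_add, map_pow]

theorem map_ex {R S : Type*} [CommSemiring R] [CommSemiring S] {n : ℕ} (φ : R →+* S) (c : ℕ → R)
    (r : ℕ) (x y : Fin n) (z : Fin n → R) (i : Fin n) :
    φ (ex c r x y z i) = ex (fun j => φ (c j)) r x y (fun i => φ (z i)) i := by
  unfold ex
  split_ifs
  · exact map_cA φ c r (z x)
  · exact map_cB φ c r (z x)
  · rfl

private theorem map_el_aux {R S : Type*} [CommSemiring R] [CommSemiring S] {n : ℕ} (φ : R →+* S)
    (c : ℕ → R) (r : ℕ) (U : Finset ℕ) : ∀ (L : List (Fin n)) (j : ℕ) (z : Fin n → R) (i : Fin n),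
    φ (el c r U j L z i) = el (fun j => φ (c j)) r U j L (fun i => φ (z i)) i
  | [], _, _, _ => by simp only [el]
  | [_], _, _, _ => by simp only [el]
  | a :: b :: L, j, z, i => by
    simp only [el]
    split_ifs with h
    · exact map_el_aux φ c r U L (j + 1) z i
    · rw [map_ex]
      have h1 : (fun i => φ (el c r U (j + 1) L z i)) =
          el (fun j => φ (c j)) r U (j + 1) L (fun i => φ (z i)) :=
        funext fun i => map_el_aux φ c r U L (j + 1) z i
      rw [h1]

theorem map_el {R S : Type*} [CommSemiring R] [CommSemiring S] {n : ℕ} (φ : R →+* S) (c : ℕ → R)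
    (r : ℕ) (U : Finset ℕ) (L : List (Fin n)) : ∀ (j : ℕ) (z : Fin n → R) (i : Fin n),
    φ (el c r U j L z i) = el (fun j => φ (c j)) r U j L (fun i => φ (z i)) i := by
  exact map_el_aux φ c r U L

private theorem eval_aev {K : Type*} [Field K] {n : ℕ} (g : Fin n → MvPolynomial (Fin n) K)
    (z : Fin n → K) (f : MvPolynomial (Fin n) K) :
    eval z (aeval g f) = eval (fun i => eval z (g i)) f := by
  induction f using MvPolynomial.induction_on with
  | C a => rw [aeval_C, algebraMap_eq, eval_C, eval_C]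
  | add p q hp hq => rw [map_add, map_add, map_add, hp, hq]
  | mul_X p i hp => rw [map_mul, map_mul, map_mul, hp, aeval_X, eval_X]

private theorem aev_aev {K : Type*} [Field K] {n : ℕ} (g h : Fin n → MvPolynomial (Fin n) K)
    (f : MvPolynomial (Fin n) K) :
    aeval g (aeval h f) = (aeval (fun i => aeval g (h i)) f : MvPolynomial (Fin n) K) := by
  induction f using MvPolynomial.induction_on with
  | C a => rw [aeval_C, algebraMap_eq, aeval_C, algebraMap_eq, aeval_C, algebraMap_eq]
  | add p q hp hq => rw [map_add, map_add, map_add, hp, hq]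
  | mul_X p i hp => rw [map_mul, map_mul, map_mul, hp, aeval_X, aeval_X]

theorem eval_mg {K : Type*} [Field K] {n : ℕ} (c : ℕ → K) (r : ℕ) (x y : Fin n) (z : Fin n → K)
    (f : MvPolynomial (Fin n) K) : eval z (mg c r x y f) = eval (ex c r x y z) f := by
  unfold mg
  rw [eval_aev]
  have h : (fun i => eval z (ex (fun j => C (c j)) r x y X i)) = ex c r x y z := by
    funext i
    rw [map_ex]
    simp only [eval_C, eval_X]
  rw [h]

theorem eval_ml {K : Type*} [Field K] {n : ℕ} (c : ℕ → K) (r : ℕ) (U : Finset ℕ) (j : ℕ)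
    (L : List (Fin n)) (z : Fin n → K) (f : MvPolynomial (Fin n) K) :
    eval z (ml c r U j L f) = eval (el c r U j L z) f := by
  unfold ml
  rw [eval_aev]
  have h : (fun i => eval z (el (fun i => C (c i)) r U j L X i)) = el c r U j L z := by
    funext i
    rw [map_el]
    simp only [eval_C, eval_X]
  rw [h]

theorem ml_nil {K : Type*} [Field K] {n : ℕ} (c : ℕ → K) (r : ℕ) (U : Finset ℕ) (j : ℕ)
    (f : MvPolynomial (Fin n) K) : ml c r U j [] f = f := by
  unfold ml
  simp only [el]
  rw [aeval_X_left]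
  rfl

theorem ml_single {K : Type*} [Field K] {n : ℕ} (c : ℕ → K) (r : ℕ) (U : Finset ℕ) (j : ℕ)
    (a : Fin n) (f : MvPolynomial (Fin n) K) : ml c r U j [a] f = f := by
  unfold ml
  simp only [el]
  rw [aeval_X_left]
  rfl

theorem ml_cons_mem {K : Type*} [Field K] {n : ℕ} (c : ℕ → K) (r : ℕ) (U : Finset ℕ) (j : ℕ)
    (a b : Fin n) (L : List (Fin n)) (hj : j ∈ U) (f : MvPolynomial (Fin n) K) :
    ml c r U j (a :: b :: L) f = ml c r U (j + 1) L f := by
  unfold ml
  simp only [el, if_pos hj]

theorem ml_cons_not_mem {K : Type*} [Field K] {n : ℕ} (c : ℕ → K) (r : ℕ) (U : Finset ℕ) (j : ℕ)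
    (a b : Fin n) (L : List (Fin n)) (hj : j ∉ U) (f : MvPolynomial (Fin n) K) :
    ml c r U j (a :: b :: L) f = ml c r U (j + 1) L (mg c r a b f) := by
  unfold ml mg
  rw [aev_aev]
  simp only [el, if_neg hj]
  have h : ex (fun i => C (c i)) r a b (el (fun i => C (c i)) r U (j + 1) L X) =
      (fun i => aeval (el (fun i => C (c i)) r U (j + 1) L X) (ex (fun j => C (c j)) r a b X i) :
        Fin n → MvPolynomial (Fin n) K) := by
    funext i
    have h1 := map_ex (aeval (el (fun i => C (c i)) r U (j + 1) L X) :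
      MvPolynomial (Fin n) K →ₐ[K] MvPolynomial (Fin n) K).toRingHom (fun j => C (c j)) r a b X i
    simp only [AlgHom.toRingHom_eq_coe, RingHom.coe_coe, aeval_X, aeval_C, algebraMap_eq] at h1
    exact h1.symm
  rw [h]

end Pool.Agent.MRG
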