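import Pool.Agent.MRG.Nat

/-!
MODULE MRG-Cts (est. 1.0 h).  Substitutions keep the ranks of the flattenings; disjoint pairs commute.

PLAN.  `cuts_subst`: for `S ⊆ Fin n'` take `S' = univ.filter (h · ∈ S)` and `f = ∑ g_k h_k` for `S'`;
`vars (aeval q g) ⊆ (vars g).biUnion (fun i => (q i).vars)` (`MvPolynomial.vars_bind₁` or
`aeval`/`bind₁`).  `cuts_mg`: `cuts_subst` with `h i = if i = y then x else i` (for `x = y` the same
`h`; note `ex .. i` has variables in `{x}` for `i = x` and for `i = y`).  `cuts_ml`: by the recursion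
of `ml` (`ml_cons_mem`, `ml_cons_not_mem`, `ml_nil`, `ml_single`).  `mg_comm`: `algHom_ext` applied to
the compositions, `map_ex`/`map_cA`/`map_cB`.
-/

set_option autoImplicit false

namespace Pool.Agent.MRG

open MvPolynomial
open Pool.Agent.AOI (Cut Cuts)

theorem cuts_subst {K : Type*} [Field K] {n n' w : ℕ} (h : Fin n → Fin n')
    (q : Fin n → MvPolynomial (Fin n') K) (hq : ∀ i, (q i).vars ⊆ {h i})
    (f : MvPolynomial (Fin n) K) (hf : Cuts w f) : Cuts w (aeval q f) := by
  classical
  intro S
  obtain ⟨g, k, hg, hk, hfg⟩ := hf (Finset.univ.filter fun i => h i ∈ S)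
  refine ⟨fun i => aeval q (g i), fun i => aeval q (k i), fun i => ?_, fun i => ?_, ?_⟩
  · intro a ha
    obtain ⟨j, hj, hja⟩ := mem_vars_bind₁ q (g i) (j := a) ha
    have h1 := hg i hj
    rw [Finset.mem_filter] at h1
    have h2 := hq j hja
    rw [Finset.mem_singleton] at h2
    rw [h2]
    exact h1.2
  · intro a ha
    obtain ⟨j, hj, hja⟩ := mem_vars_bind₁ q (k i) (j := a) ha
    have h1 := hk i hj
    rw [Finset.mem_compl, Finset.mem_filter, not_and] at h1
    have h2 := hq j hja
    rw [Finset.mem_singleton] at h2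
    rw [h2, Finset.mem_compl]
    exact h1 (Finset.mem_univ j)
  · rw [hfg, map_sum]
    exact Finset.sum_congr rfl fun i _ => map_mul _ _ _

theorem cuts_mg {K : Type*} [Field K] {n w : ℕ} (c : ℕ → K) (r : ℕ) (x y : Fin n)
    (f : MvPolynomial (Fin n) K) (hf : Cuts w f) : Cuts w (mg c r x y f) := by
  classical
  refine cuts_subst (fun i => if i = y then x else i) _ (fun i => ?_) f hf
  have key : ∀ (a : Fin n) (p : MvPolynomial (Fin n) K), p ∈ supported K ({a} : Set (Fin n)) →
      p.vars ⊆ {a} := by
    intro a p hp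
    rw [mem_supported] at hp
    intro b hb
    exact Finset.mem_singleton.2 (hp hb)
  have hlin : ∀ j, (X x + C (c j) : MvPolynomial (Fin n) K) ∈ supported K ({x} : Set (Fin n)) :=
    fun j => Subalgebra.add_mem _ (X_mem_supported.2 rfl) (Subalgebra.algebraMap_mem _ (c j))
  refine key _ _ ?_
  unfold ex
  by_cases h1 : i = x
  · rw [if_pos h1]
    have h2 : (if i = y then x else i) = x := by
      split
      · rfl
      · exact h1
    rw [h2]
    exact Subalgebra.prod_mem _ fun j _ => hlin j
  · rw [if_neg h1]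
    by_cases h2 : i = y
    · rw [if_pos h2, if_pos h2]
      exact Subalgebra.prod_mem _ fun j _ => Subalgebra.pow_mem _ (hlin j) _
    · rw [if_neg h2, if_neg h2]
      exact X_mem_supported.2 rfl

theorem cuts_ml {K : Type*} [Field K] {n w : ℕ} (c : ℕ → K) (r : ℕ) (U : Finset ℕ)
    (L : List (Fin n)) : ∀ (j : ℕ) (f : MvPolynomial (Fin n) K), Cuts w f →
    Cuts w (ml c r U j L f) := by
  match L with
  | [] =>
    intro j f hf
    rwa [ml_nil]
  | [a] =>
    intro j f hf
    rwa [ml_single]
  | a :: b :: L' =>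
    intro j f hf
    by_cases hj : j ∈ U
    · rw [ml_cons_mem c r U j a b L' hj]
      exact cuts_ml c r U L' (j + 1) f hf
    · rw [ml_cons_not_mem c r U j a b L' hj]
      exact cuts_ml c r U L' (j + 1) _ (cuts_mg c r a b f hf)

theorem mg_comm {K : Type*} [Field K] {n : ℕ} (c : ℕ → K) (r : ℕ) (x y x' y' : Fin n)
    (hxy : x ≠ y) (h1 : x ≠ x') (h2 : x ≠ y') (h3 : y ≠ x') (h4 : y ≠ y') (hxy' : x' ≠ y')
    (f : MvPolynomial (Fin n) K) :
    mg c r x y (mg c r x' y' f) = mg c r x' y' (mg c r x y f) := by
  have hX : ∀ (a b i : Fin n), mg c r a b (X i) =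
      ex (fun j => C (c j)) r a b (X : Fin n → MvPolynomial (Fin n) K) i := by
    intro a b i
    exact aeval_X _ i
  have hM : ∀ (a b a' b' i : Fin n), mg c r a b (mg c r a' b' (X i)) =
      ex (fun j => C (c j)) r a' b' (ex (fun j => C (c j)) r a b
        (X : Fin n → MvPolynomial (Fin n) K)) i := by
    intro a b a' b' i
    rw [hX a' b' i]
    have e1 := map_ex ((mg c r a b : MvPolynomial (Fin n) K →ₐ[K] MvPolynomial (Fin n) K) :
      MvPolynomial (Fin n) K →+* MvPolynomial (Fin n) K) (fun j => C (c j)) r a' b' X i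
    have e2 : (fun j => ((mg c r a b : MvPolynomial (Fin n) K →ₐ[K] MvPolynomial (Fin n) K) :
        MvPolynomial (Fin n) K →+* MvPolynomial (Fin n) K) (C (c j))) = fun j => C (c j) := by
      funext j
      exact algHom_C (mg c r a b) (c j)
    have e3 : (fun i => ((mg c r a b : MvPolynomial (Fin n) K →ₐ[K] MvPolynomial (Fin n) K) :
        MvPolynomial (Fin n) K →+* MvPolynomial (Fin n) K) (X i)) =
        ex (fun j => C (c j)) r a b (X : Fin n → MvPolynomial (Fin n) K) := by
      funext i
      exact hX a b i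
    rw [e2, e3] at e1
    exact e1
  have key : (mg c r x y).comp (mg c r x' y') = (mg c r x' y').comp (mg c r x y) := by
    refine algHom_ext fun i => ?_
    rw [AlgHom.comp_apply, AlgHom.comp_apply, hM, hM]
    by_cases i1 : i = x
    · subst i1
      simp only [ex, if_true, h1, h2, if_false]
    · by_cases i2 : i = y
      · subst i2
        simp only [ex, if_true, h1, h2, h3, h4, if_false, i1]
      · by_cases i3 : i = x'
        · subst i3
          simp only [ex, if_true, if_false, i1, i2]
        · by_cases i4 : i = y'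
          · subst i4
            simp only [ex, if_true, if_false, i1, i2, i3, h1.symm, h3.symm]
          · simp only [ex, if_false, i1, i2, i3, i4]
  exact AlgHom.congr_fun key f

end Pool.Agent.MRG
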