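import Pool.Agent.MRG.Nat

/-! MODULE MRG-NL: bookkeeping for the lists of active variables, the variables and the degree of merged polynomials. -/

set_option autoImplicit false

namespace Pool.Agent.MRG

open MvPolynomial

theorem nl_sublist {α : Type*} (U : Finset ℕ) (L : List α) : ∀ j : ℕ, (nl U j L).Sublist L := by
  match L with
  | [] => intro j; simp [nl]
  | [a] => intro j; simp [nl]
  | a :: b :: L =>
    intro j
    have ih := nl_sublist U L (j + 1)
    rw [nl]
    split_ifs
    · exact (ih.cons_cons b).cons_cons a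
    · exact (ih.cons b).cons_cons a

theorem length_nl {α : Type*} (U : Finset ℕ) (L : List α) : ∀ j : ℕ,
    (nl U j L).length ≤ (L.length + 1) / 2 +
      (U.filter (fun i => j ≤ i ∧ i < j + L.length / 2)).card := by
  match L with
  | [] => intro j; simp [nl]
  | [a] => intro j; simp [nl]
  | a :: b :: L =>
    intro j
    have ih := length_nl U L (j + 1)
    have e1 : ((a :: b :: L).length + 1) / 2 = (L.length + 1) / 2 + 1 := by
      simp only [List.length_cons]
      omega
    have e2 : (a :: b :: L).length / 2 = L.length / 2 + 1 := by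
      simp only [List.length_cons]
      omega
    rw [nl, e1, e2]
    split_ifs with hj
    · have h1 : insert j (U.filter (fun i => j + 1 ≤ i ∧ i < j + 1 + L.length / 2)) ⊆
          U.filter (fun i => j ≤ i ∧ i < j + (L.length / 2 + 1)) := by
        intro i hi
        rw [Finset.mem_insert, Finset.mem_filter] at hi
        rw [Finset.mem_filter]
        rcases hi with rfl | hi
        · exact ⟨hj, by omega⟩
        · exact ⟨hi.1, by omega⟩
      have h2 := Finset.card_le_card h1
      rw [Finset.card_insert_of_notMem (by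
        rw [Finset.mem_filter]
        omega)] at h2
      simp only [List.length_cons]
      omega
    · have h1 : U.filter (fun i => j + 1 ≤ i ∧ i < j + 1 + L.length / 2) ⊆
          U.filter (fun i => j ≤ i ∧ i < j + (L.length / 2 + 1)) := by
        intro i hi
        rw [Finset.mem_filter] at hi ⊢
        exact ⟨hi.1, by omega⟩
      have h2 := Finset.card_le_card h1
      simp only [List.length_cons]
      omega

theorem card_UH (s m : ℕ) (hs : 1 ≤ s) (H : Finset ℕ) : (UH s m H).card ≤ H.card * s := by
  have h1 : UH s m H ⊆ H.biUnion (fun h => Finset.Ico (h * s) (h * s + s)) := by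
    intro j hj
    rw [UH, Finset.mem_filter] at hj
    rw [Finset.mem_biUnion]
    refine ⟨j / s, hj.2, Finset.mem_Ico.2 ⟨Nat.div_mul_le_self j s, ?_⟩⟩
    have := Nat.lt_div_mul_add (a := j) (b := s) (by omega)
    omega
  calc (UH s m H).card ≤ (H.biUnion (fun h => Finset.Ico (h * s) (h * s + s))).card :=
        Finset.card_le_card h1
    _ ≤ ∑ h ∈ H, (Finset.Ico (h * s) (h * s + s)).card := Finset.card_biUnion_le
    _ = H.card * s := by
        rw [Finset.sum_congr rfl (g := fun _ => s) (fun h _ => by
          rw [Nat.card_Ico, Nat.add_sub_cancel_left]), Finset.sum_const, smul_eq_mul]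

theorem el_of_not_mem {R : Type*} [CommSemiring R] {n : ℕ} (c : ℕ → R) (r : ℕ) (U : Finset ℕ)
    (L : List (Fin n)) : ∀ (j : ℕ) (z : Fin n → R) (i : Fin n), i ∉ L →
    el c r U j L z i = z i := by
  match L with
  | [] => intro j z i _; rw [el]
  | [a] => intro j z i _; rw [el]
  | a :: b :: L =>
    intro j z i hi
    simp only [List.mem_cons, not_or] at hi
    have ih := el_of_not_mem c r U L (j + 1) z i hi.2.2
    rw [el]
    split_ifs
    · exact ih
    · rw [ex, if_neg hi.1, if_neg hi.2.1]
      exact ih

private theorem vars_cA {K : Type*} [Field K] {n : ℕ} (c : ℕ → K) (r : ℕ) (a : Fin n) :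
    (cA (fun i => (C (c i) : MvPolynomial (Fin n) K)) r (X a)).vars ⊆ {a} := by
  unfold cA
  refine (vars_prod _).trans (Finset.biUnion_subset.2 fun j _ => ?_)
  refine (vars_add_subset _ _).trans (Finset.union_subset ?_ ?_)
  · rw [vars_X]
  · rw [vars_C]
    exact Finset.empty_subset _

private theorem vars_cB {K : Type*} [Field K] {n : ℕ} (c : ℕ → K) (r : ℕ) (a : Fin n) :
    (cB (fun i => (C (c i) : MvPolynomial (Fin n) K)) r (X a)).vars ⊆ {a} := by
  unfold cB
  refine (vars_prod _).trans (Finset.biUnion_subset.2 fun j _ => ?_)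
  refine (vars_pow _ _).trans ((vars_add_subset _ _).trans (Finset.union_subset ?_ ?_))
  · rw [vars_X]
  · rw [vars_C]
    exact Finset.empty_subset _

private theorem vars_el {K : Type*} [Field K] {n : ℕ} (c : ℕ → K) (r : ℕ) (U : Finset ℕ)
    (L : List (Fin n)) : ∀ (j : ℕ), L.Nodup → ∀ i ∈ L,
    (el (fun i => (C (c i) : MvPolynomial (Fin n) K)) r U j L X i).vars ⊆ (nl U j L).toFinset := by
  match L with
  | [] => intro j _ i hi; exact absurd hi (by simp)
  | [a] =>
    intro j _ i hi
    rw [List.mem_singleton] at hi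
    rw [el, nl, hi, vars_X]
    simp
  | a :: b :: L =>
    intro j hL i hi
    rw [List.nodup_cons, List.nodup_cons, List.mem_cons, not_or] at hL
    obtain ⟨⟨hab, haL⟩, hbL, hL'⟩ := hL
    have ih := vars_el c r U L (j + 1) hL'
    rw [el, nl]
    split_ifs with hj
    · rw [List.mem_cons, List.mem_cons] at hi
      rcases hi with rfl | rfl | hi
      · rw [el_of_not_mem _ _ _ _ _ _ _ haL, vars_X]
        simp
      · rw [el_of_not_mem _ _ _ _ _ _ _ hbL, vars_X]
        simp
      · refine (ih i hi).trans fun x hx => ?_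
        rw [List.mem_toFinset] at hx ⊢
        exact List.mem_cons_of_mem _ (List.mem_cons_of_mem _ hx)
    · rw [ex]
      rw [el_of_not_mem _ _ _ _ _ _ _ haL]
      rw [List.mem_cons, List.mem_cons] at hi
      split_ifs with h1 h2
      · refine (vars_cA c r a).trans fun x hx => ?_
        rw [Finset.mem_singleton] at hx
        rw [List.mem_toFinset, hx]
        exact List.mem_cons_self
      · refine (vars_cB c r a).trans fun x hx => ?_
        rw [Finset.mem_singleton] at hx
        rw [List.mem_toFinset, hx]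
        exact List.mem_cons_self
      · rcases hi with hi | hi | hi
        · exact absurd hi h1
        · exact absurd hi h2
        · refine (ih i hi).trans fun x hx => ?_
          rw [List.mem_toFinset] at hx ⊢
          exact List.mem_cons_of_mem _ hx

theorem vars_ml {K : Type*} [Field K] {n : ℕ} (c : ℕ → K) (r : ℕ) (U : Finset ℕ) (j : ℕ)
    (L : List (Fin n)) (hL : L.Nodup) (f : MvPolynomial (Fin n) K) (hf : f.vars ⊆ L.toFinset) :
    (ml c r U j L f).vars ⊆ (nl U j L).toFinset := by
  have h1 := vars_bind₁ (el (fun i => (C (c i) : MvPolynomial (Fin n) K)) r U j L X) f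
  have h2 : ml c r U j L f = bind₁ (el (fun i => (C (c i) : MvPolynomial (Fin n) K)) r U j L X) f := rfl
  rw [h2]
  refine h1.trans (Finset.biUnion_subset.2 fun i hi => ?_)
  exact vars_el c r U L j hL i (List.mem_toFinset.1 (hf hi))

theorem totalDegree_aeval_le {K : Type*} [Field K] {n n' : ℕ}
    (q : Fin n → MvPolynomial (Fin n') K) (E : ℕ) (hq : ∀ i, (q i).totalDegree ≤ E)
    (f : MvPolynomial (Fin n) K) : (aeval q f).totalDegree ≤ f.totalDegree * E := by
  rw [aeval_def, eval₂_eq']
  refine totalDegree_finsetSum_le fun m hm => ?_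
  refine (totalDegree_mul _ _).trans ?_
  have h1 : (algebraMap K (MvPolynomial (Fin n') K) (coeff m f)).totalDegree = 0 := by
    rw [algebraMap_eq]
    exact totalDegree_C _
  rw [h1, zero_add]
  calc (∏ i, q i ^ m i).totalDegree ≤ ∑ i, (q i ^ m i).totalDegree := totalDegree_finsetProd _ _
    _ ≤ ∑ i, m i * E := Finset.sum_le_sum fun i _ =>
        (totalDegree_pow _ _).trans (Nat.mul_le_mul_left _ (hq i))
    _ = (∑ i, m i) * E := by rw [Finset.sum_mul]
    _ ≤ f.totalDegree * E := by
        refine Nat.mul_le_mul_right _ ?_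
        have h2 := le_totalDegree hm
        rwa [Finsupp.sum_fintype _ _ (fun _ => rfl)] at h2

private theorem deg_lin {K : Type*} [Field K] {n : ℕ} (a : Fin n) (x : K) :
    ((X a + C x : MvPolynomial (Fin n) K)).totalDegree ≤ 1 := by
  refine (totalDegree_add _ _).trans ?_
  rw [totalDegree_X, totalDegree_C]
  simp

private theorem deg_cA {K : Type*} [Field K] {n : ℕ} (c : ℕ → K) (r : ℕ) (a : Fin n) :
    (cA (fun i => (C (c i) : MvPolynomial (Fin n) K)) r (X a)).totalDegree ≤ (r + 1) ^ 2 := by
  unfold cA
  calc (∏ j ∈ Finset.range r, (X a + C (c j) : MvPolynomial (Fin n) K)).totalDegree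
      ≤ ∑ j ∈ Finset.range r, (X a + C (c j) : MvPolynomial (Fin n) K).totalDegree :=
        totalDegree_finsetProd _ _
    _ ≤ ∑ j ∈ Finset.range r, 1 := Finset.sum_le_sum fun j _ => deg_lin a (c j)
    _ = r := by simp
    _ ≤ (r + 1) ^ 2 := by nlinarith

private theorem deg_cB {K : Type*} [Field K] {n : ℕ} (c : ℕ → K) (r : ℕ) (a : Fin n) :
    (cB (fun i => (C (c i) : MvPolynomial (Fin n) K)) r (X a)).totalDegree ≤ (r + 1) ^ 2 := by
  unfold cB
  calc (∏ j ∈ Finset.range r, (X a + C (c j) : MvPolynomial (Fin n) K) ^ (j + 1)).totalDegree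
      ≤ ∑ j ∈ Finset.range r, ((X a + C (c j) : MvPolynomial (Fin n) K) ^ (j + 1)).totalDegree :=
        totalDegree_finsetProd _ _
    _ ≤ ∑ j ∈ Finset.range r, r := Finset.sum_le_sum fun j hj => by
        refine (totalDegree_pow _ _).trans ?_
        have h1 := deg_lin a (c j)
        have h2 := Finset.mem_range.1 hj
        calc (j + 1) * (X a + C (c j) : MvPolynomial (Fin n) K).totalDegree ≤ (j + 1) * 1 :=
              Nat.mul_le_mul_left _ h1
          _ ≤ r := by omega
    _ = r * r := by simp
    _ ≤ (r + 1) ^ 2 := by nlinarith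

private theorem deg_el {K : Type*} [Field K] {n : ℕ} (c : ℕ → K) (r : ℕ) (U : Finset ℕ)
    (L : List (Fin n)) : ∀ (j : ℕ), L.Nodup → ∀ i,
    (el (fun i => (C (c i) : MvPolynomial (Fin n) K)) r U j L X i).totalDegree ≤ (r + 1) ^ 2 := by
  have hX : ∀ i : Fin n, (X i : MvPolynomial (Fin n) K).totalDegree ≤ (r + 1) ^ 2 := fun i => by
    rw [totalDegree_X]
    exact Nat.one_le_pow _ _ (by omega)
  match L with
  | [] => intro j _ i; rw [el]; exact hX i
  | [a] => intro j _ i; rw [el]; exact hX i
  | a :: b :: L =>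
    intro j hL i
    rw [List.nodup_cons, List.nodup_cons, List.mem_cons, not_or] at hL
    obtain ⟨⟨hab, haL⟩, hbL, hL'⟩ := hL
    have ih := deg_el c r U L (j + 1) hL'
    rw [el]
    split_ifs with hj
    · exact ih i
    · rw [ex]
      rw [el_of_not_mem _ _ _ _ _ _ _ haL]
      split_ifs with h1 h2
      · exact deg_cA c r a
      · exact deg_cB c r a
      · exact ih i

theorem totalDegree_ml {K : Type*} [Field K] {n : ℕ} (c : ℕ → K) (r : ℕ) (U : Finset ℕ) (j : ℕ)
    (L : List (Fin n)) (hL : L.Nodup) (f : MvPolynomial (Fin n) K) :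
    (ml c r U j L f).totalDegree ≤ f.totalDegree * (r + 1) ^ 2 :=
  totalDegree_aeval_le _ _ (fun i => deg_el c r U L j hL i) f

end Pool.Agent.MRG
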