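import Pool.Agent.MRG.Pts

/-!
MODULE MRG-Iso (est. 1.2 h).  Isolation of a monomial with few variables (helper12): substitute
`x_i = y_(h i) ^ wt D n i`, `h` injective on the support of the exponent `a`.

PLAN.  Let `E b = ∑_i single (h i) (b i * wt D n i)`; the substitution maps the monomial `b` to the
monomial `E b` with the same coefficient.  Coefficient of the result at `E a`: the sum of `coeff b F`
over the `b ∈ F.support` with `E b = E a`; show that `b = a` is the only one.  For such a `b` and a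
colour `j` let `M0, M1, M2` be the sums of `b i`, `b i * i`, `b i * i^2` over the `i` with `h i = j`,
`M0', M1', M2'` the same for `a`.  `M0, M0' ≤ D`, `M1, M1' ≤ n D` (`b.degree ≤ totalDegree`,
`i < n`), and `M0 + (D+1) M1 + (D+1)(nD+1) M2` is the same for `a` and `b`, so the three moments are
equal (remainders modulo `D+1`, then modulo `nD+1`).  If no `i` of colour `j` is in `a.support` then
`M0 = 0`, so `b i = 0 = a i` there.  Otherwise exactly one, `i0` (injectivity): `M0' = a i0`,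
`M1' = a i0 * i0`, `M2' = a i0 * i0^2`, so `∑ b i (i - i0)^2 = M2 - 2 i0 M1 + i0^2 M0 = 0` (over `ℤ`),
hence `b i = 0` for `i ≠ i0`, and `b i0 = M0 = a i0`.
-/

set_option autoImplicit false

namespace Pool.Agent.MRG

open MvPolynomial

private theorem iso_two {m x y u v : ℕ} (hx : x < m) (hy : y < m) (h : x + m * u = y + m * v) :
    x = y ∧ u = v := by
  have h1 : (x + m * u) % m = (y + m * v) % m := by rw [h]
  rw [Nat.add_mul_mod_self_left, Nat.add_mul_mod_self_left, Nat.mod_eq_of_lt hx, Nat.mod_eq_of_lt hy] at h1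
  subst h1
  refine ⟨rfl, ?_⟩
  have h2 : m * u = m * v := Nat.add_left_cancel h
  exact Nat.eq_of_mul_eq_mul_left (by omega) h2

private theorem iso_three {D N x0 x1 x2 y0 y1 y2 : ℕ} (hx0 : x0 ≤ D) (hy0 : y0 ≤ D) (hx1 : x1 ≤ N)
    (hy1 : y1 ≤ N)
    (h : x0 + (D + 1) * x1 + (D + 1) * (N + 1) * x2 = y0 + (D + 1) * y1 + (D + 1) * (N + 1) * y2) :
    x0 = y0 ∧ x1 = y1 ∧ x2 = y2 := by
  have h1 : x0 + (D + 1) * (x1 + (N + 1) * x2) = y0 + (D + 1) * (y1 + (N + 1) * y2) := by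
    calc x0 + (D + 1) * (x1 + (N + 1) * x2) = x0 + (D + 1) * x1 + (D + 1) * (N + 1) * x2 := by ring
      _ = _ := h
      _ = _ := by ring
  obtain ⟨e0, e1⟩ := iso_two (by omega) (by omega) h1
  obtain ⟨e2, e3⟩ := iso_two (by omega) (by omega) e1
  exact ⟨e0, e2, e3⟩

private theorem iso_bd {n D : ℕ} {b : Fin n → ℕ} (hb : ∑ i, b i ≤ D) (S : Finset (Fin n)) :
    ∑ i ∈ S, b i ≤ D ∧ ∑ i ∈ S, b i * (i : ℕ) ≤ n * D := by
  have h1 : ∑ i ∈ S, b i ≤ D :=
    (Finset.sum_le_sum_of_subset_of_nonneg (Finset.subset_univ S) (fun _ _ _ => Nat.zero_le _)).trans hb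
  refine ⟨h1, ?_⟩
  calc ∑ i ∈ S, b i * (i : ℕ) ≤ ∑ i ∈ S, b i * n :=
        Finset.sum_le_sum fun i _ => Nat.mul_le_mul_left _ i.2.le
    _ = (∑ i ∈ S, b i) * n := by rw [Finset.sum_mul]
    _ ≤ D * n := Nat.mul_le_mul_right _ h1
    _ = n * D := mul_comm _ _

private theorem iso_core {n D : ℕ} {a b : Fin n → ℕ} (ha : ∑ i, a i ≤ D) (hb : ∑ i, b i ≤ D)
    (S : Finset (Fin n)) (hinj : ∀ i ∈ S, ∀ k ∈ S, a i ≠ 0 → a k ≠ 0 → i = k)
    (h : ∑ i ∈ S, wt D n (i : ℕ) * b i = ∑ i ∈ S, wt D n (i : ℕ) * a i) : ∀ i ∈ S, b i = a i := by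
  have ex : ∀ c : Fin n → ℕ, ∑ i ∈ S, wt D n (i : ℕ) * c i =
      ∑ i ∈ S, c i + (D + 1) * ∑ i ∈ S, c i * (i : ℕ) +
        (D + 1) * (n * D + 1) * ∑ i ∈ S, c i * (i : ℕ) ^ 2 := by
    intro c
    rw [Finset.mul_sum, Finset.mul_sum, ← Finset.sum_add_distrib, ← Finset.sum_add_distrib]
    refine Finset.sum_congr rfl fun i _ => ?_
    unfold wt
    ring
  rw [ex, ex] at h
  obtain ⟨a0, a1⟩ := iso_bd ha S
  obtain ⟨b0, b1⟩ := iso_bd hb S
  obtain ⟨e0, e1, e2⟩ := iso_three b0 a0 b1 a1 h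
  by_cases hz : ∀ i ∈ S, a i = 0
  · have h0 : ∑ i ∈ S, b i = 0 := by
      rw [e0]
      exact Finset.sum_eq_zero hz
    intro i hi
    rw [hz i hi]
    exact (Finset.sum_eq_zero_iff.1 h0) i hi
  · obtain ⟨i0, hi0, hne⟩ : ∃ i ∈ S, a i ≠ 0 := by
      by_contra hc
      exact hz fun i hi => by
        by_contra hn
        exact hc ⟨i, hi, hn⟩
    have az : ∀ i ∈ S, i ≠ i0 → a i = 0 := by
      intro i hi hii
      by_contra hn
      exact hii (hinj i hi i0 hi0 hn hne)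
    have s0 : ∑ i ∈ S, a i = a i0 := Finset.sum_eq_single_of_mem i0 hi0 az
    have s1 : ∑ i ∈ S, a i * (i : ℕ) = a i0 * (i0 : ℕ) :=
      Finset.sum_eq_single_of_mem i0 hi0 fun i hi hii => by rw [az i hi hii, zero_mul]
    have s2 : ∑ i ∈ S, a i * (i : ℕ) ^ 2 = a i0 * (i0 : ℕ) ^ 2 :=
      Finset.sum_eq_single_of_mem i0 hi0 fun i hi hii => by rw [az i hi hii, zero_mul]
    rw [s0] at e0
    rw [s1] at e1
    rw [s2] at e2
    have key : ∑ i ∈ S, (b i : ℤ) * ((i : ℕ) - (i0 : ℕ) : ℤ) ^ 2 = 0 := by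
      have f0 : ∑ i ∈ S, (b i : ℤ) = (a i0 : ℤ) := by exact_mod_cast e0
      have f1 : ∑ i ∈ S, (b i : ℤ) * ((i : ℕ) : ℤ) = (a i0 : ℤ) * ((i0 : ℕ) : ℤ) := by exact_mod_cast e1
      have f2 : ∑ i ∈ S, (b i : ℤ) * ((i : ℕ) : ℤ) ^ 2 = (a i0 : ℤ) * ((i0 : ℕ) : ℤ) ^ 2 := by
        exact_mod_cast e2
      have g : ∑ i ∈ S, (b i : ℤ) * ((i : ℕ) - (i0 : ℕ) : ℤ) ^ 2 =
          ∑ i ∈ S, (b i : ℤ) * ((i : ℕ) : ℤ) ^ 2 - 2 * ((i0 : ℕ) : ℤ) * ∑ i ∈ S, (b i : ℤ) * ((i : ℕ) : ℤ) +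
            ((i0 : ℕ) : ℤ) ^ 2 * ∑ i ∈ S, (b i : ℤ) := by
        rw [Finset.mul_sum, Finset.mul_sum, ← Finset.sum_sub_distrib, ← Finset.sum_add_distrib]
        refine Finset.sum_congr rfl fun i _ => ?_
        ring
      rw [g, f0, f1, f2]
      ring
    have bz : ∀ i ∈ S, i ≠ i0 → b i = 0 := by
      intro i hi hii
      have h1 := (Finset.sum_eq_zero_iff_of_nonneg (fun i _ => by positivity)).1 key i hi
      rcases mul_eq_zero.1 h1 with h2 | h2
      · exact_mod_cast h2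
      · exfalso
        apply hii
        have h3 : ((i : ℕ) : ℤ) - ((i0 : ℕ) : ℤ) = 0 := by
          exact pow_eq_zero_iff (two_ne_zero) |>.1 h2
        exact Fin.ext (by omega)
    have bs : ∑ i ∈ S, b i = b i0 := Finset.sum_eq_single_of_mem i0 hi0 bz
    intro i hi
    by_cases hii : i = i0
    · subst hii
      rw [← bs, e0]
    · rw [az i hi hii, bz i hi hii]

private theorem iso_aeval {K : Type*} [Field K] {n n' : ℕ} (F : MvPolynomial (Fin n) K) (c : Fin n → ℕ)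
    (h : Fin n → Fin n') :
    aeval (fun i => (X (h i) : MvPolynomial (Fin n') K) ^ c i) F =
      ∑ b ∈ F.support, C (coeff b F) * monomial (∑ i, Finsupp.single (h i) (c i * b i)) 1 := by
  rw [aeval_def, eval₂_eq']
  refine Finset.sum_congr rfl fun b _ => ?_
  rw [MvPolynomial.algebraMap_eq, monomial_sum_one]
  congr 1
  refine Finset.prod_congr rfl fun i _ => ?_
  rw [← pow_mul, X_pow_eq_monomial]

private theorem iso_deg {K : Type*} [Field K] {n D : ℕ} {F : MvPolynomial (Fin n) K}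
    (hD : F.totalDegree ≤ D) {b : Fin n →₀ ℕ} (hb : b ∈ F.support) : ∑ i, b i ≤ D := by
  have h1 := (le_totalDegree hb).trans hD
  rwa [Finsupp.sum_fintype _ _ (fun _ => rfl)] at h1

theorem iso {K : Type*} [Field K] {n n' D : ℕ} (F : MvPolynomial (Fin n) K)
    (hD : F.totalDegree ≤ D) (a : Fin n →₀ ℕ) (ha : coeff a F ≠ 0) (h : Fin n → Fin n')
    (hinj : Set.InjOn h (a.support : Set (Fin n))) :
    aeval (fun i => (X (h i) : MvPolynomial (Fin n') K) ^ wt D n (i : ℕ)) F ≠ 0 := by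
  classical
  have haS : a ∈ F.support := mem_support_iff.2 ha
  intro hz
  rw [iso_aeval] at hz
  apply ha
  have h1 := congrArg (coeff (∑ i, Finsupp.single (h i) (wt D n (i : ℕ) * a i))) hz
  rw [coeff_sum, coeff_zero, Finset.sum_eq_single_of_mem a haS] at h1
  · rw [coeff_C_mul, coeff_monomial, if_pos rfl, mul_one] at h1
    exact h1
  · intro b hb hba
    rw [coeff_C_mul, coeff_monomial, if_neg, mul_zero]
    intro he
    apply hba
    ext i
    have h2 := DFunLike.congr_fun he (h i)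
    rw [Finsupp.finsetSum_apply, Finsupp.finsetSum_apply] at h2
    have conv : ∀ c : Fin n →₀ ℕ, ∑ k, (Finsupp.single (h k) (wt D n (k : ℕ) * c k)) (h i) =
        ∑ k ∈ Finset.univ.filter (fun k => h k = h i), wt D n (k : ℕ) * c k := by
      intro c
      rw [Finset.sum_filter]
      refine Finset.sum_congr rfl fun k _ => ?_
      rw [Finsupp.single_apply]
    rw [conv, conv] at h2
    refine iso_core (a := a) (b := b) (iso_deg hD haS) (iso_deg hD hb)
      (Finset.univ.filter (fun k => h k = h i)) ?_ h2 i (by simp)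
    intro k hk l hl hak hal
    rw [Finset.mem_filter] at hk hl
    exact hinj (Finset.mem_coe.2 (Finsupp.mem_support_iff.2 hak))
      (Finset.mem_coe.2 (Finsupp.mem_support_iff.2 hal)) (hk.2.trans hl.2.symm)

end Pool.Agent.MRG
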