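import Pool.Agent.MRG.Greedy
import Pool.Agent.MRG.NL

/-!
MODULE MRG-Hit (est. 1.2 h).  The hitting set theorem for the active variables in a list.

PLAN.  Induction on `Q`.  `[]`: `N ≤ 1`, so `L = []` or `L = [a]` and `f` is a polynomial in one
variable (or constant) of degree `≤ T`, not `0`: the polynomial `aeval (fun _ => Polynomial.X) f` in
one variable is not `0` (e.g. `f` is the image of a univariate polynomial because
`f.vars ⊆ {a}`; or: `aeval (fun _ => X a) f = f`), of degree `≤ T`, so it has a nonzero among the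
`T + 1` different values `φ (c t)`, `t ≤ T`.
`q :: Q`: `r = 2^q.1 - 1`, `(r+1)^(κ+1) = 2^(q.1 (κ+1)) > w`.  `step` for the sequence `φ ∘ c` gives
`U`; `H = U.image (· / q.2.1) ⊆ range q.2.2` (`i < L.length / 2 ≤ N / 2 ≤ s G`), `H.card ≤ κ`,
`V = UH s (L.length / 2) H ⊇ U`.  Apply the induction hypothesis to `ml (φ ∘ c) r V 0 L f` and the
list `nl V 0 L` (`nl_sublist`, `length_nl`, `card_UH`, `cuts_ml`, `vars_ml`, `totalDegree_ml`,
`(2^ρ)^2 = 4^ρ`); then `eval_ml` and `map_el`.
-/

set_option autoImplicit false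

namespace Pool.Agent.MRG

open MvPolynomial
open Pool.Agent.AOI (Cut Cuts)

private theorem hit_base {K R : Type*} [Field K] [CommSemiring R] {n : ℕ} (φ : R →+* K)
    (c : ℕ → R) (hc : Function.Injective (fun j => φ (c j))) (L : List (Fin n))
    (f : MvPolynomial (Fin n) K) (T T' : ℕ) (hL : L.length ≤ 1) (hf : f ≠ 0)
    (hv : f.vars ⊆ L.toFinset) (hT : f.totalDegree ≤ T) (hT' : T ≤ T') :
    ∃ t ∈ Finset.range (T' + 1), eval (fun _ : Fin n => φ (c t)) f ≠ 0 := by
  obtain ⟨e, he⟩ : ∃ e : MvPolynomial (Fin n) K, ∀ i ∈ f.vars, e = X i := by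
    rcases L with _ | ⟨a, _ | ⟨b, L⟩⟩
    · refine ⟨0, fun i hi => ?_⟩
      have := hv hi
      simp at this
    · refine ⟨X a, fun i hi => ?_⟩
      have := hv hi
      rw [List.mem_toFinset, List.mem_singleton] at this
      rw [this]
    · simp at hL
  set g : Polynomial K := aeval (fun _ => (Polynomial.X : Polynomial K)) f with hg
  have hback : Polynomial.aeval e g = f := by
    have h1 : ((Polynomial.aeval e).comp (aeval (fun _ : Fin n => (Polynomial.X : Polynomial K)))).toRingHom f =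
        (RingHom.id (MvPolynomial (Fin n) K)) f := by
      refine hom_congr_vars ?_ ?_ rfl
      · ext a
        simp
      · intro i hi _
        simp [he i hi]
    exact h1
  have hg0 : g ≠ 0 := by
    intro h
    rw [h, map_zero] at hback
    exact hf hback.symm
  have hev : ∀ t : K, Polynomial.eval t g = eval (fun _ => t) f := by
    intro t
    have h1 : ((Polynomial.evalRingHom t).comp
        (aeval (fun _ : Fin n => (Polynomial.X : Polynomial K))).toRingHom) =
        (eval (fun _ => t) : MvPolynomial (Fin n) K →+* K) := by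
      refine MvPolynomial.ringHom_ext ?_ ?_
      · intro a
        simp
      · intro i
        simp
    exact RingHom.congr_fun h1 f
  have hdeg : g.natDegree ≤ T := by
    have := aeval_natDegree_le f hT (fun _ => (Polynomial.X : Polynomial K)) (n := 1)
      (fun i => Polynomial.natDegree_X_le)
    rwa [mul_one] at this
  by_contra hcon
  push Not at hcon
  refine hg0 (Polynomial.eq_zero_of_natDegree_lt_card_of_eval_eq_zero g
    (f := fun t : Fin (T' + 1) => φ (c t)) ?_ ?_ ?_)
  · intro a b hab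
    exact Fin.ext (hc hab)
  · intro t
    rw [hev]
    exact hcon t (Finset.mem_range.2 t.2)
  · rw [Fintype.card_fin]
    omega

theorem hit {K R : Type*} [Field K] [CommSemiring R] [DecidableEq R] {n w : ℕ} (φ : R →+* K)
    (c : ℕ → R) (hc : Function.Injective (fun j => φ (c j))) (Q : List (ℕ × ℕ × ℕ)) :
    ∀ (N : ℕ) (L : List (Fin n)) (f : MvPolynomial (Fin n) K) (T T' : ℕ), L.Nodup →
      L.length ≤ N → Good w N Q → f ≠ 0 → Cuts w f → f.vars ⊆ L.toFinset → f.totalDegree ≤ T →
      T * (Q.map (fun q => 4 ^ q.1)).prod ≤ T' →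
      ∃ x ∈ pts c T' Q L, eval (fun i => φ (x i)) f ≠ 0 := by
  induction Q with
  | nil =>
    intro N L f T T' _ hN hG hf _ hv hT hT'
    have hN1 : N ≤ 1 := hG
    obtain ⟨t, ht, h⟩ := hit_base φ c hc L f T T' (le_trans hN hN1) hf hv hT (by simpa using hT')
    exact ⟨fun _ => c t, Finset.mem_image.2 ⟨t, ht, rfl⟩, h⟩
  | cons q Q ih =>
    intro N L f T T' hL hN hG hf hw hv hT hT'
    obtain ⟨hs, hNG, κ, hκ, hG'⟩ : 1 ≤ q.2.1 ∧ N / 2 ≤ q.2.1 * q.2.2 ∧
      ∃ κ, w < 2 ^ (q.1 * (κ + 1)) ∧ Good w ((N + 1) / 2 + κ * q.2.1) Q := hG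
    have hr : 2 ^ q.1 - 1 + 1 = 2 ^ q.1 := Nat.sub_add_cancel Nat.one_le_two_pow
    obtain ⟨U, hUc, hUb, hUV⟩ := step (κ := κ) (fun j => φ (c j)) (2 ^ q.1 - 1) hc.injOn L hL f hf hw
      (by rw [hr, ← pow_mul]; exact hκ)
    have hHr : U.image (fun i => i / q.2.1) ⊆ Finset.range q.2.2 := by
      intro j hj
      obtain ⟨i, hi, rfl⟩ := Finset.mem_image.1 hj
      rw [Finset.mem_range]
      refine Nat.div_lt_of_lt_mul ?_
      have h1 := hUb i hi
      have h2 : L.length / 2 ≤ N / 2 := Nat.div_le_div_right hN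
      omega
    have hUV' : U ⊆ UH q.2.1 (L.length / 2) (U.image (fun i => i / q.2.1)) := by
      intro i hi
      unfold UH
      rw [Finset.mem_filter, Finset.mem_range]
      exact ⟨hUb i hi, Finset.mem_image_of_mem _ hi⟩
    have hHc : (U.image (fun i => i / q.2.1)).card ≤ κ := le_trans Finset.card_image_le hUc
    generalize U.image (fun i => i / q.2.1) = H at hHr hUV' hHc
    have hf' := hUV _ hUV'
    have hlen : (nl (UH q.2.1 (L.length / 2) H) 0 L).length ≤ (N + 1) / 2 + κ * q.2.1 := by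
      refine le_trans (length_nl _ L 0) (Nat.add_le_add (by omega) ?_)
      refine le_trans (Finset.card_filter_le _ _) ?_
      exact le_trans (card_UH q.2.1 (L.length / 2) hs H) (Nat.mul_le_mul_right _ hHc)
    have hdeg : (ml (fun j => φ (c j)) (2 ^ q.1 - 1) (UH q.2.1 (L.length / 2) H) 0 L f).totalDegree ≤
        T * 4 ^ q.1 := by
      refine le_trans (totalDegree_ml _ _ _ _ L hL f) ?_
      rw [hr, ← pow_mul, mul_comm q.1 2, pow_mul]
      exact Nat.mul_le_mul_right _ hT
    obtain ⟨x, hx, hx'⟩ := ih ((N + 1) / 2 + κ * q.2.1) (nl (UH q.2.1 (L.length / 2) H) 0 L)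
      (ml (fun j => φ (c j)) (2 ^ q.1 - 1) (UH q.2.1 (L.length / 2) H) 0 L f) (T * 4 ^ q.1) T'
      (hL.sublist (nl_sublist _ L 0)) hlen hG' hf' (cuts_ml _ _ _ L 0 f hw) (vars_ml _ _ _ 0 L hL f hv) hdeg
      (by rw [List.map_cons, List.prod_cons, ← mul_assoc] at hT'; exact hT')
    refine ⟨el c (2 ^ q.1 - 1) (UH q.2.1 (L.length / 2) H) 0 L x, ?_, ?_⟩
    · show _ ∈ (Finset.range q.2.2).powerset.biUnion _
      rw [Finset.mem_biUnion]
      exact ⟨H, Finset.mem_powerset.2 hHr, Finset.mem_image_of_mem _ hx⟩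
    · rw [eval_ml] at hx'
      have h1 : (fun i => φ (el c (2 ^ q.1 - 1) (UH q.2.1 (L.length / 2) H) 0 L x i)) =
          el (fun j => φ (c j)) (2 ^ q.1 - 1) (UH q.2.1 (L.length / 2) H) 0 L (fun i => φ (x i)) :=
        funext fun i => map_el φ c _ _ L 0 x i
      rw [h1]
      exact hx'

theorem card_pts {R : Type*} [CommSemiring R] [DecidableEq R] {n : ℕ} (c : ℕ → R) (T : ℕ)
    (Q : List (ℕ × ℕ × ℕ)) : ∀ L : List (Fin n),
      (pts c T Q L).card ≤ (T + 1) * 2 ^ (Q.map (fun q => q.2.2)).sum := by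
  induction Q with
  | nil =>
    intro L
    refine le_trans Finset.card_image_le ?_
    simp
  | cons q Q ih =>
    intro L
    show ((Finset.range q.2.2).powerset.biUnion _).card ≤ _
    refine le_trans Finset.card_biUnion_le ?_
    refine le_trans (Finset.sum_le_card_nsmul _ _ ((T + 1) * 2 ^ (Q.map (fun q => q.2.2)).sum) ?_) ?_
    · intro H _
      exact le_trans Finset.card_image_le (ih _)
    · rw [Finset.card_powerset, Finset.card_range, List.map_cons, List.sum_cons, pow_add, smul_eq_mul]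
      exact le_of_eq (by ring)

end Pool.Agent.MRG
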