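import Pool.Agent.MRG.Defs

/-!
Project MRG (MP_e2be99_lc): arithmetic of the schedule of levels.
-/

set_option autoImplicit false

namespace Pool.Agent.MRG

/-! ### Helper lemmas -/

private lemma lt_two_pow_rho (w k : ℕ) :
    w < 2 ^ ((Nat.log 2 w / (k + 1) + 1) * (k + 1)) := by
  have h1 : w < 2 ^ (Nat.log 2 w + 1) := Nat.lt_pow_succ_log_self (by norm_num) w
  have h2 : Nat.log 2 w + 1 ≤ (Nat.log 2 w / (k + 1) + 1) * (k + 1) := by
    have h3 := Nat.lt_div_mul_add (a := Nat.log 2 w) (b := k + 1) (Nat.succ_pos k)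
    rw [Nat.add_mul, Nat.one_mul]
    omega
  exact lt_of_lt_of_le h1 (Nat.pow_le_pow_right (by norm_num) h2)

private lemma next_small (N : ℕ) (hN : 2 ≤ N) : (N + 1) / 2 + N / 2 / 2 + 1 ≤ N := by
  omega

private lemma four_next_large (K N : ℕ) (hK : 1 ≤ K) (hN : 8 * K < N / 2) :
    4 * ((N + 1) / 2 + K * (N / 2 / (4 * K) + 1)) ≤ 3 * N := by
  have h1 : 4 * K * (N / 2 / (4 * K)) ≤ N / 2 := Nat.mul_div_le _ _
  have h2 : 4 * (K * (N / 2 / (4 * K) + 1)) = 4 * K * (N / 2 / (4 * K)) + 4 * K := by ring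
  have h3 : 4 * ((N + 1) / 2 + K * (N / 2 / (4 * K) + 1)) =
      4 * ((N + 1) / 2) + (4 * K * (N / 2 / (4 * K)) + 4 * K) := by
    rw [Nat.mul_add, h2]
  rw [h3]
  omega

private lemma good_sch (w K : ℕ) (hK : 1 ≤ K) :
    ∀ F N : ℕ, N ≤ F + 1 → Good w N (sch w K F N) := by
  intro F
  induction F with
  | zero =>
    intro N hN
    show N ≤ 1
    omega
  | succ F ih =>
    intro N hN
    by_cases h1 : N ≤ 1
    · have e : sch w K (F + 1) N = [] := by
        simp only [sch, h1, if_true]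
      rw [e]
      exact h1
    · by_cases h2 : N / 2 ≤ 8 * K
      · have e : sch w K (F + 1) N = (Nat.log 2 w / (N / 2 / 2 + 1) + 1, 1, N / 2) ::
            sch w K F ((N + 1) / 2 + N / 2 / 2) := by
          simp only [sch, h1, h2, if_true, if_false]
        rw [e]
        have h3 := next_small N (by omega)
        refine ⟨le_refl 1, ?_, N / 2 / 2, lt_two_pow_rho w (N / 2 / 2), ?_⟩
        · show N / 2 ≤ 1 * (N / 2)
          omega
        · show Good w ((N + 1) / 2 + N / 2 / 2 * 1) (sch w K F ((N + 1) / 2 + N / 2 / 2))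
          rw [Nat.mul_one]
          exact ih _ (by omega)
      · have e : sch w K (F + 1) N = (Nat.log 2 w / (K + 1) + 1, N / 2 / (4 * K) + 1, 4 * K) ::
            sch w K F ((N + 1) / 2 + K * (N / 2 / (4 * K) + 1)) := by
          simp only [sch, h1, h2, if_false]
        rw [e]
        have h3 := four_next_large K N hK (by omega)
        refine ⟨Nat.le_add_left 1 _, ?_, K, lt_two_pow_rho w K, ?_⟩
        · show N / 2 ≤ (N / 2 / (4 * K) + 1) * (4 * K)
          have h4 := Nat.lt_div_mul_add (a := N / 2) (b := 4 * K) (by omega)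
          rw [Nat.add_mul, Nat.one_mul]
          exact h4.le
        · show Good w ((N + 1) / 2 + K * (N / 2 / (4 * K) + 1))
            (sch w K F ((N + 1) / 2 + K * (N / 2 / (4 * K) + 1)))
          exact ih _ (by omega)

private lemma prod_four (Q : List (ℕ × ℕ × ℕ)) :
    (Q.map (fun q => 4 ^ q.1)).prod = 4 ^ (Q.map (fun q => q.1)).sum := by
  induction Q with
  | nil => simp
  | cons q Q ih =>
    rw [List.map_cons, List.prod_cons, ih, List.map_cons, List.sum_cons, pow_add]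

private lemma key_ineq (N : ℕ) (hN : 2 ≤ N) :
    N * ((N + 1) / 2 + N / 2 / 2) ≤
      12 * (N - ((N + 1) / 2 + N / 2 / 2)) * (N / 2 / 2 + 1) := by
  obtain ⟨q, r, hr, rfl⟩ : ∃ q r : ℕ, r < 4 ∧ N = 4 * q + r := ⟨N / 4, N % 4, by omega, by omega⟩
  have hk : (4 * q + r) / 2 / 2 = q := by omega
  interval_cases r
  · have e1 : (4 * q + 0 + 1) / 2 + (4 * q + 0) / 2 / 2 = 3 * q := by omega
    have e2 : 4 * q + 0 - 3 * q = q := by omega
    rw [hk] at *
    rw [e1, e2]
    nlinarith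
  · have e1 : (4 * q + 1 + 1) / 2 + (4 * q + 1) / 2 / 2 = 3 * q + 1 := by omega
    have e2 : 4 * q + 1 - (3 * q + 1) = q := by omega
    have hq : 1 ≤ q := by omega
    rw [hk] at *
    rw [e1, e2]
    nlinarith
  · have e1 : (4 * q + 2 + 1) / 2 + (4 * q + 2) / 2 / 2 = 3 * q + 1 := by omega
    have e2 : 4 * q + 2 - (3 * q + 1) = q + 1 := by omega
    rw [hk] at *
    rw [e1, e2]
    nlinarith
  · have e1 : (4 * q + 3 + 1) / 2 + (4 * q + 3) / 2 / 2 = 3 * q + 2 := by omega
    have e2 : 4 * q + 3 - (3 * q + 2) = q + 1 := by omega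
    rw [hk] at *
    rw [e1, e2]
    nlinarith

private lemma step_ineq (N M δ k t W R : ℕ) (hM : 1 ≤ M) (hδ : 1 ≤ δ) (hN : N = M + δ)
    (hkey : N * M ≤ 12 * δ * (k + 1)) (ht : (k + 1) * t ≤ W)
    (hR : M * R + 12 * W ≤ 12 * W * M + M ^ 2) :
    N * (t + 1 + R) + 12 * W ≤ 12 * W * N + N ^ 2 := by
  have h1 : N * M * t ≤ 12 * δ * W := by
    calc N * M * t ≤ 12 * δ * (k + 1) * t := Nat.mul_le_mul_right _ hkey
      _ = 12 * δ * ((k + 1) * t) := by ring
      _ ≤ 12 * δ * W := Nat.mul_le_mul_left _ ht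
  have h2 : N * M * 1 ≤ N * M * δ := Nat.mul_le_mul_left _ hδ
  have h3 : N * (M * R + 12 * W) ≤ N * (12 * W * M + M ^ 2) := Nat.mul_le_mul_left _ hR
  have h4 : M * (N * (t + 1 + R) + 12 * W) ≤ M * (12 * W * N + N ^ 2) := by
    subst hN
    nlinarith
  exact Nat.le_of_mul_le_mul_left h4 hM

private lemma small_sch (w K : ℕ) :
    ∀ F N : ℕ, 1 ≤ N → N / 2 ≤ 8 * K →
      N * ((sch w K F N).map (fun q => q.1)).sum + 12 * Nat.log 2 w ≤
          12 * Nat.log 2 w * N + N ^ 2 ∧
        ((sch w K F N).map (fun q => q.2.2)).sum ≤ 2 * N := by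
  intro F
  induction F with
  | zero =>
    intro N hN hN2
    have e : sch w K 0 N = [] := rfl
    rw [e]
    refine ⟨?_, ?_⟩
    · have : 12 * Nat.log 2 w * 1 ≤ 12 * Nat.log 2 w * N := Nat.mul_le_mul_left _ hN
      simp only [List.map_nil, List.sum_nil, Nat.mul_zero, Nat.zero_add]
      omega
    · simp
  | succ F ih =>
    intro N hN hN2
    by_cases h1 : N ≤ 1
    · have e : sch w K (F + 1) N = [] := by
        simp only [sch, h1, if_true]
      rw [e]
      refine ⟨?_, ?_⟩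
      · have : 12 * Nat.log 2 w * 1 ≤ 12 * Nat.log 2 w * N := Nat.mul_le_mul_left _ hN
        simp only [List.map_nil, List.sum_nil, Nat.mul_zero, Nat.zero_add]
        omega
      · simp
    · have e : sch w K (F + 1) N = (Nat.log 2 w / (N / 2 / 2 + 1) + 1, 1, N / 2) ::
          sch w K F ((N + 1) / 2 + N / 2 / 2) := by
        simp only [sch, h1, hN2, if_true, if_false]
      rw [e]
      have h3 := next_small N (by omega)
      obtain ⟨i1, i2⟩ := ih ((N + 1) / 2 + N / 2 / 2) (by omega) (by omega)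
      refine ⟨?_, ?_⟩
      · rw [List.map_cons, List.sum_cons]
        exact step_ineq N ((N + 1) / 2 + N / 2 / 2) (N - ((N + 1) / 2 + N / 2 / 2)) (N / 2 / 2)
          (Nat.log 2 w / (N / 2 / 2 + 1)) (Nat.log 2 w) _ (by omega) (by omega) (by omega)
          (key_ineq N (by omega)) (Nat.mul_div_le _ _) i1
      · rw [List.map_cons, List.sum_cons]
        show N / 2 + _ ≤ 2 * N
        omega

private lemma pow15 (N M : ℕ) (h : 4 * M ≤ 3 * N) : 2 ^ 6 * M ^ 15 ≤ N ^ 15 := by
  have h1 : (4 * M) ^ 15 ≤ (3 * N) ^ 15 := Nat.pow_le_pow_left h 15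
  rw [mul_pow, mul_pow] at h1
  have h2 : 4 ^ 15 * (2 ^ 6 * M ^ 15) ≤ 4 ^ 15 * N ^ 15 := by
    calc 4 ^ 15 * (2 ^ 6 * M ^ 15) = 2 ^ 6 * (4 ^ 15 * M ^ 15) := by ring
      _ ≤ 2 ^ 6 * (3 ^ 15 * N ^ 15) := Nat.mul_le_mul_left _ h1
      _ = (2 ^ 6 * 3 ^ 15) * N ^ 15 := by ring
      _ ≤ 4 ^ 15 * N ^ 15 := Nat.mul_le_mul_right _ (by norm_num)
  exact Nat.le_of_mul_le_mul_left h2 (by positivity)

private lemma cost_sch (w K : ℕ) (hK : 1 ≤ K) (hWK : Nat.log 2 w < K * K) :
    ∀ F N : ℕ, 1 ≤ N →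
      ((sch w K F N).map (fun q => 4 ^ q.1)).prod *
          2 ^ ((sch w K F N).map (fun q => q.2.2)).sum ≤
        2 ^ (24 * Nat.log 2 w + 64 * K + 4) * N ^ (15 * K) := by
  intro F
  induction F with
  | zero =>
    intro N hN
    have e : sch w K 0 N = [] := rfl
    rw [e]
    have h1 : 1 ≤ 2 ^ (24 * Nat.log 2 w + 64 * K + 4) := Nat.one_le_two_pow
    have h2 : 1 ≤ N ^ (15 * K) := Nat.one_le_pow _ _ hN
    simpa using Nat.mul_le_mul h1 h2
  | succ F ih =>
    intro N hN
    by_cases h1 : N ≤ 1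
    · have e : sch w K (F + 1) N = [] := by
        simp only [sch, h1, if_true]
      rw [e]
      have h1 : 1 ≤ 2 ^ (24 * Nat.log 2 w + 64 * K + 4) := Nat.one_le_two_pow
      have h2 : 1 ≤ N ^ (15 * K) := Nat.one_le_pow _ _ hN
      simpa using Nat.mul_le_mul h1 h2
    · by_cases h2 : N / 2 ≤ 8 * K
      · obtain ⟨s1, s2⟩ := small_sch w K (F + 1) N hN h2
        set R := ((sch w K (F + 1) N).map (fun q => q.1)).sum with hR
        set S := ((sch w K (F + 1) N).map (fun q => q.2.2)).sum with hS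
        rw [prod_four, ← hR]
        have h3 : R ≤ 12 * Nat.log 2 w + N := by
          have h4 : N * R ≤ N * (12 * Nat.log 2 w + N) := by nlinarith
          exact Nat.le_of_mul_le_mul_left h4 hN
        have h5 : (4 : ℕ) ^ R * 2 ^ S = 2 ^ (2 * R + S) := by
          rw [pow_add, pow_mul]
          norm_num
        rw [h5]
        have h6 : 2 * R + S ≤ 24 * Nat.log 2 w + 64 * K + 4 := by omega
        calc 2 ^ (2 * R + S) ≤ 2 ^ (24 * Nat.log 2 w + 64 * K + 4) :=
              Nat.pow_le_pow_right (by norm_num) h6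
          _ = 2 ^ (24 * Nat.log 2 w + 64 * K + 4) * 1 := (Nat.mul_one _).symm
          _ ≤ 2 ^ (24 * Nat.log 2 w + 64 * K + 4) * N ^ (15 * K) :=
              Nat.mul_le_mul_left _ (Nat.one_le_pow _ _ hN)
      · have e : sch w K (F + 1) N = (Nat.log 2 w / (K + 1) + 1, N / 2 / (4 * K) + 1, 4 * K) ::
            sch w K F ((N + 1) / 2 + K * (N / 2 / (4 * K) + 1)) := by
          simp only [sch, h1, h2, if_false]
        rw [e]
        have h3 := four_next_large K N hK (by omega)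
        set M := (N + 1) / 2 + K * (N / 2 / (4 * K) + 1) with hM
        have hM1 : 1 ≤ M := by omega
        have hi := ih M hM1
        rw [List.map_cons, List.prod_cons, List.map_cons, List.sum_cons]
        have hρ : Nat.log 2 w / (K + 1) + 1 ≤ K := by
          have h4 : Nat.log 2 w / (K + 1) < K := by
            rw [Nat.div_lt_iff_lt_mul (Nat.succ_pos K)]
            nlinarith
          omega
        have h5 : (4 : ℕ) ^ (Nat.log 2 w / (K + 1) + 1) ≤ 2 ^ (2 * K) := by
          rw [pow_mul]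
          exact Nat.pow_le_pow_right (by norm_num) hρ
        have h6 : 2 ^ (6 * K) * M ^ (15 * K) ≤ N ^ (15 * K) := by
          rw [pow_mul, pow_mul, pow_mul, ← mul_pow]
          exact Nat.pow_le_pow_left (pow15 N M h3) K
        have h7 : (4 : ℕ) ^ (Nat.log 2 w / (K + 1) + 1) * 2 ^ (4 * K) ≤ 2 ^ (6 * K) := by
          calc (4 : ℕ) ^ (Nat.log 2 w / (K + 1) + 1) * 2 ^ (4 * K)
              ≤ 2 ^ (2 * K) * 2 ^ (4 * K) := Nat.mul_le_mul_right _ h5
            _ = 2 ^ (6 * K) := by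
              rw [← pow_add]
              congr 1
              ring
        set P := ((sch w K F M).map (fun q => 4 ^ q.1)).prod with hP
        set S := ((sch w K F M).map (fun q => q.2.2)).sum with hS
        show 4 ^ (Nat.log 2 w / (K + 1) + 1) * P * 2 ^ (4 * K + S) ≤ _
        calc 4 ^ (Nat.log 2 w / (K + 1) + 1) * P * 2 ^ (4 * K + S)
            = (4 ^ (Nat.log 2 w / (K + 1) + 1) * 2 ^ (4 * K)) * (P * 2 ^ S) := by
              rw [pow_add]
              ring
          _ ≤ 2 ^ (6 * K) * (2 ^ (24 * Nat.log 2 w + 64 * K + 4) * M ^ (15 * K)) :=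
              Nat.mul_le_mul h7 hi
          _ = 2 ^ (24 * Nat.log 2 w + 64 * K + 4) * (2 ^ (6 * K) * M ^ (15 * K)) := by ring
          _ ≤ 2 ^ (24 * Nat.log 2 w + 64 * K + 4) * N ^ (15 * K) :=
              Nat.mul_le_mul_left _ h6

private lemma one_le_KK (w : ℕ) : 1 ≤ KK w := Nat.le_add_left 1 _

private lemma log_lt_KK (w : ℕ) : Nat.log 2 w < KK w * KK w :=
  Nat.lt_succ_sqrt _

theorem good_sched (w N : ℕ) (hw : 1 ≤ w) : Good w N (sched w N) := by
  have := hw
  exact good_sch w (KK w) (one_le_KK w) N N (Nat.le_succ N)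

theorem cost_sched (w N : ℕ) (hN : 1 ≤ N) :
    ((sched w N).map (fun q => 4 ^ q.1)).prod * 2 ^ ((sched w N).map (fun q => q.2.2)).sum ≤
      2 ^ (24 * Nat.log 2 w + 64 * KK w + 4) * N ^ (15 * KK w) := by
  exact cost_sch w (KK w) (one_le_KK w) (log_lt_KK w) N N hN

end Pool.Agent.MRG
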