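import Pool.Agent.MRG.Pts
import Pool.Agent.MRG.Hit
import Pool.Agent.MRG.Sched

/-!
MODULE MRG-Card (est. 1.2 h).  The number of points.

PLAN.  `W = Nat.log 2 w`, `K = KK w`: `1 ≤ K ≤ W + 1`, `W + 1 ≤ K^2 ≤ 2 W + 2`
(`Nat.sqrt_le'`, `Nat.lt_succ_sqrt'`: `K^2 = s^2 + 2 s + 1`, `s^2 ≤ W`, `2 s ≤ s^2 + 1`),
`2^W ≤ w`, `kq w ≤ K` (`W / K < K`).  `s1 d w ≤ 2^((K+1) K) d^K`, so `s1^2 ≤ 2^(2K^2+2K) d^(2K) ≤
2^(6W+6) d^(2K)` (`2K^2 + 2K ≤ 4W + 4 + 2W + 2`).  `W + 1 ≤ K^2 ≤ 2^(K+1)`, so `tau w ≤ 2^(2K+2)`,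
`N = tau w ^ 2 ≤ 2^(4K+4)`, `N^(15K) ≤ 2^(60K^2+60K) ≤ 2^(180W+180)`; with `cost_sched`
(`1 ≤ N`): cost ≤ 2^(24W + 64(W+1) + 4 + 180W + 180) = 2^(268 W + 248).
`card points ≤ (n d (n s1^2) + 1) (2n+1)^2 (TT + 1) 2^(∑G)`, `(TT + 1) 2^(∑G) ≤
(n d wt(nd,n,n) + 1) * cost` (cost `≥ 2^(∑G)`), `wt (nd) n n ≤ 8 (n+1)^5 d^2`, etc.:
everything is at most `2^(274W + ...) ≤ (2 w)^300` and powers of `n + 1`, `d`.
-/

set_option autoImplicit false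

namespace Pool.Agent.MRG

private lemma kq_le (w : ℕ) : kq w ≤ KK w := by
  have h : Nat.log 2 w < KK w * KK w := Nat.lt_succ_sqrt _
  have h1 : Nat.log 2 w / KK w < KK w := Nat.div_lt_of_lt_mul h
  unfold kq
  omega

private lemma KK_pos (w : ℕ) : 1 ≤ KK w := Nat.le_add_left 1 _

private lemma KK_sq (w : ℕ) : KK w ^ 2 ≤ 2 * Nat.log 2 w + 2 := by
  have h : Nat.sqrt (Nat.log 2 w) ^ 2 ≤ Nat.log 2 w := Nat.sqrt_le' _
  have h1 : 2 * Nat.sqrt (Nat.log 2 w) ≤ Nat.sqrt (Nat.log 2 w) ^ 2 + 1 := by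
    have := Nat.sqrt (Nat.log 2 w)
    rcases Nat.le_total (Nat.sqrt (Nat.log 2 w)) 1 with h2 | h2
    · interval_cases (Nat.sqrt (Nat.log 2 w)) <;> omega
    · nlinarith
  unfold KK
  nlinarith

private lemma KK_le (w : ℕ) : KK w ≤ Nat.log 2 w + 1 := by
  unfold KK
  have := Nat.sqrt_le_self (Nat.log 2 w)
  omega

private lemma sq_le_two_pow : ∀ K : ℕ, K ^ 2 ≤ 2 ^ (K + 1)
  | 0 => by norm_num
  | 1 => by norm_num
  | 2 => by norm_num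
  | 3 => by norm_num
  | K + 4 => by
    have h := sq_le_two_pow (K + 3)
    have h1 : (2 : ℕ) ^ (K + 4 + 1) = 2 * 2 ^ (K + 3 + 1) := by ring
    have h2 : (K + 4) ^ 2 + (K ^ 2 + 4 * K + 2) = 2 * (K + 3) ^ 2 := by ring
    rw [h1]
    calc (K + 4) ^ 2 ≤ (K + 4) ^ 2 + (K ^ 2 + 4 * K + 2) := Nat.le_add_right _ _
      _ = 2 * (K + 3) ^ 2 := h2
      _ ≤ 2 * 2 ^ (K + 3 + 1) := Nat.mul_le_mul_left _ h

private lemma tau_sq_le (w : ℕ) : tau w ^ 2 ≤ 2 ^ (4 * KK w + 4) := by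
  have h1 : Nat.log 2 w + 1 ≤ KK w ^ 2 := by
    rw [sq]
    exact Nat.lt_succ_sqrt _
  have h2 : tau w ≤ 2 ^ (KK w + 1) * 2 ^ (KK w + 1) := by
    unfold tau qq
    exact Nat.mul_le_mul_left _ (h1.trans (sq_le_two_pow _))
  calc tau w ^ 2 ≤ (2 ^ (KK w + 1) * 2 ^ (KK w + 1)) ^ 2 := Nat.pow_le_pow_left h2 2
    _ = 2 ^ (4 * KK w + 4) := by
      rw [← pow_add, ← pow_mul]
      congr 1
      ring

private lemma s1_sq_le (d w : ℕ) (hd : 1 ≤ d) :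
    s1 d w ^ 2 ≤ 2 ^ (2 * KK w ^ 2 + 2 * KK w) * d ^ (2 * KK w) := by
  have h1 : 1 ≤ qq w * d := Nat.mul_pos (by unfold qq; positivity) hd
  calc s1 d w ^ 2 = (qq w * d) ^ (2 * kq w) := by
        unfold s1
        rw [← pow_mul, mul_comm (kq w) 2]
    _ ≤ (qq w * d) ^ (2 * KK w) :=
        Nat.pow_le_pow_right h1 (Nat.mul_le_mul_left _ (kq_le w))
    _ = 2 ^ (2 * KK w ^ 2 + 2 * KK w) * d ^ (2 * KK w) := by
        unfold qq
        rw [mul_pow, ← pow_mul]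
        congr 2
        ring

private lemma wt_le (n d : ℕ) (hd : 1 ≤ d) :
    n * d * wt (n * d) n n + 1 ≤ 3 * (n + 1) ^ 6 * d ^ 3 := by
  have h1 : n * d + 1 ≤ (n + 1) * d := by nlinarith
  have h2 : n * (n * d) + 1 ≤ (n + 1) ^ 2 * d := by nlinarith
  have h3 : (1 : ℕ) ≤ (n + 1) ^ 5 * d ^ 2 := Nat.mul_pos (by positivity) (by positivity)
  have h4 : (n * d + 1) * n ≤ (n + 1) ^ 5 * d ^ 2 := by
    calc (n * d + 1) * n ≤ ((n + 1) * d) * (n + 1) := Nat.mul_le_mul h1 (by omega)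
      _ = (n + 1) ^ 2 * d ^ 1 := by ring
      _ ≤ (n + 1) ^ 5 * d ^ 2 := Nat.mul_le_mul (Nat.pow_le_pow_right (by omega) (by omega))
          (Nat.pow_le_pow_right hd (by omega))
  have h5 : (n * d + 1) * (n * (n * d) + 1) * n ^ 2 ≤ (n + 1) ^ 5 * d ^ 2 := by
    calc (n * d + 1) * (n * (n * d) + 1) * n ^ 2 ≤ ((n + 1) * d) * ((n + 1) ^ 2 * d) * (n + 1) ^ 2 :=
          Nat.mul_le_mul (Nat.mul_le_mul h1 h2) (Nat.pow_le_pow_left (by omega) 2)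
      _ = (n + 1) ^ 5 * d ^ 2 := by ring
  have h6 : wt (n * d) n n ≤ 3 * ((n + 1) ^ 5 * d ^ 2) := by
    unfold wt
    omega
  have h7 : n * d * wt (n * d) n n ≤ n * d * (3 * ((n + 1) ^ 5 * d ^ 2)) := Nat.mul_le_mul_left _ h6
  have h8 : (1 : ℕ) ≤ (n + 1) ^ 5 * d ^ 3 := Nat.mul_pos (by positivity) (by positivity)
  calc n * d * wt (n * d) n n + 1 ≤ n * d * (3 * ((n + 1) ^ 5 * d ^ 2)) + 3 * ((n + 1) ^ 5 * d ^ 3) := by
        omega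
    _ = 3 * (n + 1) ^ 6 * d ^ 3 := by ring

theorem card_points (n d w : ℕ) (hd : 1 ≤ d) (hw : 1 ≤ w) :
    (points n d w).card ≤ (n + 1) ^ 10 * (2 * w) ^ 300 * d ^ (2 * KK w + 4) := by
  have hcp := card_pts (n := tau w ^ 2) (fun j : ℕ => j + 1) (TT n d w) (sched w (tau w ^ 2))
    (List.finRange (tau w ^ 2))
  have hc := cost_sched w (tau w ^ 2) (nc_pos w)
  have hP : 1 ≤ ((sched w (tau w ^ 2)).map (fun q => 4 ^ q.1)).prod := by
    refine List.one_le_prod_of_one_le ?_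
    intro a ha
    obtain ⟨q, -, rfl⟩ := List.mem_map.1 ha
    exact Nat.one_le_pow _ _ (by norm_num)
  have hTT : TT n d w = n * d * wt (n * d) n n * ((sched w (tau w ^ 2)).map (fun q => 4 ^ q.1)).prod :=
    rfl
  generalize ((sched w (tau w ^ 2)).map (fun q => 4 ^ q.1)).prod = P at hc hP hTT
  generalize 2 ^ ((sched w (tau w ^ 2)).map (fun q => q.2.2)).sum = Q at hcp hc
  have hN : (tau w ^ 2) ^ (15 * KK w) ≤ 2 ^ (60 * KK w ^ 2 + 60 * KK w) := by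
    refine (Nat.pow_le_pow_left (tau_sq_le w) _).trans (le_of_eq ?_)
    rw [← pow_mul]
    congr 1
    ring
  have hcost : P * Q ≤ 2 ^ (24 * Nat.log 2 w + 64 * KK w + 4 + (60 * KK w ^ 2 + 60 * KK w)) := by
    rw [pow_add]
    exact hc.trans (Nat.mul_le_mul_left _ hN)
  have h1 : (TT n d w + 1) * Q ≤ 3 * (n + 1) ^ 6 * d ^ 3 * (P * Q) := by
    have h2 : TT n d w + 1 ≤ (n * d * wt (n * d) n n + 1) * P := by
      rw [hTT, Nat.add_mul, Nat.one_mul]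
      omega
    calc (TT n d w + 1) * Q ≤ (n * d * wt (n * d) n n + 1) * P * Q := Nat.mul_le_mul_right _ h2
      _ = (n * d * wt (n * d) n n + 1) * (P * Q) := Nat.mul_assoc _ _ _
      _ ≤ 3 * (n + 1) ^ 6 * d ^ 3 * (P * Q) := Nat.mul_le_mul_right _ (wt_le n d hd)
  have hs0 : 1 ≤ s1 d w ^ 2 := by
    have : 1 ≤ qq w * d := Nat.mul_pos (by unfold qq; positivity) hd
    unfold s1
    exact Nat.one_le_pow _ _ (Nat.pow_pos this)
  have h3 : n * d * (n * s1 d w ^ 2) + 1 ≤ (n + 1) ^ 2 * d * s1 d w ^ 2 := by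
    generalize s1 d w ^ 2 = s at hs0
    have h4 : 1 ≤ d * s := Nat.mul_pos hd hs0
    calc n * d * (n * s) + 1 ≤ n * d * (n * s) + d * s := by omega
      _ = (n ^ 2 + 1) * (d * s) := by ring
      _ ≤ (n + 1) ^ 2 * (d * s) := Nat.mul_le_mul_right _ (by nlinarith)
      _ = (n + 1) ^ 2 * d * s := by ring
  have h5 : (2 * n + 1) * (2 * n + 1) ≤ 4 * (n + 1) ^ 2 := by nlinarith
  have hcard : (points n d w).card ≤ (n * d * (n * s1 d w ^ 2) + 1) *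
      ((2 * n + 1) * (2 * n + 1) * ((TT n d w + 1) * Q)) := by
    unfold points
    refine Finset.card_image_le.trans ?_
    rw [Finset.card_product, Finset.card_product, Finset.card_product, Finset.card_range,
      Finset.card_range, Nat.mul_assoc (2 * n + 1) (2 * n + 1)]
    exact Nat.mul_le_mul_left _ (Nat.mul_le_mul_left _ (Nat.mul_le_mul_left _ hcp))
  have hK2 := KK_sq w
  have hK1 := KK_le w
  have hw2 : 2 ^ Nat.log 2 w ≤ w := Nat.pow_log_le_self 2 (by omega)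
  have hfin : 12 * 2 ^ (2 * KK w ^ 2 + 2 * KK w) *
      2 ^ (24 * Nat.log 2 w + 64 * KK w + 4 + (60 * KK w ^ 2 + 60 * KK w)) ≤ (2 * w) ^ 300 := by
    calc 12 * 2 ^ (2 * KK w ^ 2 + 2 * KK w) *
          2 ^ (24 * Nat.log 2 w + 64 * KK w + 4 + (60 * KK w ^ 2 + 60 * KK w))
        ≤ 2 ^ 4 * 2 ^ (2 * KK w ^ 2 + 2 * KK w) *
          2 ^ (24 * Nat.log 2 w + 64 * KK w + 4 + (60 * KK w ^ 2 + 60 * KK w)) :=
          Nat.mul_le_mul_right _ (Nat.mul_le_mul_right _ (by norm_num))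
      _ = 2 ^ (4 + (2 * KK w ^ 2 + 2 * KK w) +
          (24 * Nat.log 2 w + 64 * KK w + 4 + (60 * KK w ^ 2 + 60 * KK w))) := by
          rw [← pow_add, ← pow_add]
      _ ≤ 2 ^ ((1 + Nat.log 2 w) * 300) := Nat.pow_le_pow_right (by norm_num) (by omega)
      _ = (2 * 2 ^ Nat.log 2 w) ^ 300 := by
          rw [pow_mul, pow_add, pow_one]
      _ ≤ (2 * w) ^ 300 := Nat.pow_le_pow_left (Nat.mul_le_mul_left _ hw2) _
  calc (points n d w).card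
      ≤ (n * d * (n * s1 d w ^ 2) + 1) *
          ((2 * n + 1) * (2 * n + 1) * ((TT n d w + 1) * Q)) := hcard
    _ ≤ ((n + 1) ^ 2 * d * (2 ^ (2 * KK w ^ 2 + 2 * KK w) * d ^ (2 * KK w))) *
          (4 * (n + 1) ^ 2 * (3 * (n + 1) ^ 6 * d ^ 3 *
            2 ^ (24 * Nat.log 2 w + 64 * KK w + 4 + (60 * KK w ^ 2 + 60 * KK w)))) :=
        Nat.mul_le_mul (h3.trans (Nat.mul_le_mul_left _ (s1_sq_le d w hd)))
          (Nat.mul_le_mul h5 (h1.trans (Nat.mul_le_mul_left _ hcost)))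
    _ = (n + 1) ^ 10 * (12 * 2 ^ (2 * KK w ^ 2 + 2 * KK w) *
          2 ^ (24 * Nat.log 2 w + 64 * KK w + 4 + (60 * KK w ^ 2 + 60 * KK w))) *
          d ^ (2 * KK w + 4) := by
        generalize 2 ^ (2 * KK w ^ 2 + 2 * KK w) = A
        generalize 2 ^ (24 * Nat.log 2 w + 64 * KK w + 4 + (60 * KK w ^ 2 + 60 * KK w)) = B
        rw [pow_add d (2 * KK w) 4]
        ring
    _ ≤ (n + 1) ^ 10 * (2 * w) ^ 300 * d ^ (2 * KK w + 4) :=
        Nat.mul_le_mul_right _ (Nat.mul_le_mul_left _ hfin)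

end Pool.Agent.MRG
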