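import Pool.Agent.AOI.Defs

/-!
Project MRG (MP_e2be99_lc): hitting sets for polynomials all of whose flattenings have rank at most
`w`, of arbitrary individual degree: merging of pairs of variables along the curve
`(∏ (z + c_j), ∏ (z + c_j)^(j+1))`.  Definitions.
-/

set_option autoImplicit false

namespace Pool.Agent.MRG

open MvPolynomial
open Pool.Agent.AOI (Cut Cuts)

/-- First coordinate of the merging curve: `∏_(j < r) (z + c_j)`. -/
def cA {R : Type*} [CommSemiring R] (c : ℕ → R) (r : ℕ) (z : R) : R :=
  ∏ j ∈ Finset.range r, (z + c j)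

/-- Second coordinate of the merging curve: `∏_(j < r) (z + c_j)^(j+1)`. -/
def cB {R : Type*} [CommSemiring R] (c : ℕ → R) (r : ℕ) (z : R) : R :=
  ∏ j ∈ Finset.range r, (z + c j) ^ (j + 1)

/-- The point `z` with the coordinates `x` and `y` replaced by the values of the merging curve
at `z x`. -/
def ex {R : Type*} [CommSemiring R] {n : ℕ} (c : ℕ → R) (r : ℕ) (x y : Fin n) (z : Fin n → R) :
    Fin n → R :=
  fun i => if i = x then cA c r (z x) else if i = y then cB c r (z x) else z i

/-- The polynomial `f` with the pair of variables `x`, `y` merged (into the variable `x`). -/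
noncomputable def mg {K : Type*} [Field K] {n : ℕ} (c : ℕ → K) (r : ℕ) (x y : Fin n) :
    MvPolynomial (Fin n) K →ₐ[K] MvPolynomial (Fin n) K :=
  aeval (ex (fun j => C (c j)) r x y X)

/-- The list of active variables after merging the consecutive pairs of `L` (the pairs are numbered
from `j` on) whose number is not in `U`: a merged pair is represented by its first element. -/
def nl {α : Type*} (U : Finset ℕ) : ℕ → List α → List α
  | _, [] => []
  | _, [a] => [a]
  | j, a :: b :: L => if j ∈ U then a :: b :: nl U (j + 1) L else a :: nl U (j + 1) L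

/-- The point obtained from a point of the active variables `nl U j L`. -/
def el {R : Type*} [CommSemiring R] {n : ℕ} (c : ℕ → R) (r : ℕ) (U : Finset ℕ) :
    ℕ → List (Fin n) → (Fin n → R) → Fin n → R
  | _, [], z => z
  | _, [_], z => z
  | j, a :: b :: L, z => if j ∈ U then el c r U (j + 1) L z else ex c r a b (el c r U (j + 1) L z)

/-- The polynomial `f` with the pairs of `L` whose number is not in `U` merged. -/
noncomputable def ml {K : Type*} [Field K] {n : ℕ} (c : ℕ → K) (r : ℕ) (U : Finset ℕ) (j : ℕ)
    (L : List (Fin n)) : MvPolynomial (Fin n) K →ₐ[K] MvPolynomial (Fin n) K :=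
  aeval (el (fun i => C (c i)) r U j L X)

/-- The numbers `j < m` which lie in one of the chunks (intervals of length `s`) in `H`. -/
def UH (s m : ℕ) (H : Finset ℕ) : Finset ℕ := (Finset.range m).filter (fun j => j / s ∈ H)

/-- The points: `Q` is the list of the parameters `(ρ, s, G)` of the levels, `L` the list of the
active variables: at each level all subsets `H` of `range G` are tried, and the pairs outside the
chunks (of length `s`) in `H` are merged along the curve with `r = 2^ρ - 1`; at the end all active
variables are equal to `c t`, `t ≤ T`. -/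
def pts {R : Type*} [CommSemiring R] [DecidableEq R] {n : ℕ} (c : ℕ → R) (T : ℕ) :
    List (ℕ × ℕ × ℕ) → List (Fin n) → Finset (Fin n → R)
  | [], _ => (Finset.range (T + 1)).image (fun t _ => c t)
  | q :: Q, L => (Finset.range q.2.2).powerset.biUnion fun H =>
      (pts c T Q (nl (UH q.2.1 (L.length / 2) H) 0 L)).image
        (el c (2 ^ q.1 - 1) (UH q.2.1 (L.length / 2) H) 0 L)

/-- The list of parameters `Q` is good for ranks at most `w` and at most `N` active variables. -/
def Good (w : ℕ) : ℕ → List (ℕ × ℕ × ℕ) → Prop
  | N, [] => N ≤ 1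
  | N, q :: Q => 1 ≤ q.2.1 ∧ N / 2 ≤ q.2.1 * q.2.2 ∧
      ∃ κ, w < 2 ^ (q.1 * (κ + 1)) ∧ Good w ((N + 1) / 2 + κ * q.2.1) Q

/-- The parameters for `N` variables; the first argument `K` is about the square root of `log w`,
the second one is fuel. -/
def sch (w K : ℕ) : ℕ → ℕ → List (ℕ × ℕ × ℕ)
  | 0, _ => []
  | F + 1, N =>
    if N ≤ 1 then []
    else if N / 2 ≤ 8 * K then
      (Nat.log 2 w / (N / 2 / 2 + 1) + 1, 1, N / 2) :: sch w K F ((N + 1) / 2 + N / 2 / 2)
    else
      (Nat.log 2 w / (K + 1) + 1, N / 2 / (4 * K) + 1, 4 * K) ::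
        sch w K F ((N + 1) / 2 + K * (N / 2 / (4 * K) + 1))

/-- A number slightly larger than the square root of `log w`. -/
def KK (w : ℕ) : ℕ := Nat.sqrt (Nat.log 2 w) + 1

/-- The parameters for `N` variables. -/
def sched (w N : ℕ) : List (ℕ × ℕ × ℕ) := sch w (KK w) N N

/-! ## Rows of flattenings -/

/-- The row with index `α` of the flattening of `f` with respect to `S`. -/
noncomputable def row {K : Type*} [Field K] {n : ℕ} (S : Finset (Fin n))
    (f : MvPolynomial (Fin n) K) (α : Fin n →₀ ℕ) : (Fin n →₀ ℕ) → K :=
  fun β => coeff (α.filter (· ∈ S) + β.filter (· ∉ S)) f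

/-- The row space of the flattening of `f` with respect to `S`. -/
noncomputable def Rsp {K : Type*} [Field K] {n : ℕ} (S : Finset (Fin n))
    (f : MvPolynomial (Fin n) K) : Submodule K ((Fin n →₀ ℕ) → K) :=
  Submodule.span K (Set.range (row S f))

/-- The coefficient of `x^a y^b` in `f`, a polynomial in the other variables. -/
noncomputable def pc {K : Type*} [Field K] {n : ℕ} (x y : Fin n) (a b : ℕ)
    (f : MvPolynomial (Fin n) K) : MvPolynomial (Fin n) K :=
  ∑ m ∈ f.support.filter (fun m => m x = a ∧ m y = b),
    monomial ((m.erase x).erase y) (coeff m f)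

end Pool.Agent.MRG
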