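import Pool.Agent.MRG.Rank
import Pool.Agent.MRG.Cts

/-!
MODULE MRG-Greedy (est. 1.2 h).  Greedy merging: few pairs stay unmerged.

PLAN.  `mg_ml_comm`: `{x, y}` disjoint from the list `L`: by the recursion of `ml` and `mg_comm`.
`greedy`: strong recursion on `L`.  `[]`, `[_]`: `U = ∅`, `P = []`, `g = f`.  `a :: b :: L`:
(i) `mg c r a b f ≠ 0`: use the induction hypothesis for `L`, `j + 1`, `mg c r a b f`: it gives `U`,
`P`, `g`.  For `V ⊇ U`: if `j ∉ V` use `ml_cons_not_mem`; if `j ∈ V` then by `ml_cons_mem` we need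
`ml V (j+1) L f ≠ 0`, which follows from `mg c r a b (ml V (j+1) L f) = ml V (j+1) L (mg c r a b f)`,
which is not `0`.
(ii) `mg c r a b f = 0`: the induction hypothesis for `L`, `j + 1`, `f` gives `U`, `P`, `g`; take
`insert j U` and `(a, b) :: P` and the same `g`; `mg c r a b g = 0` because `g = ml U (j+1) L f` (kept
as a conclusion) and commutation; every `V ⊇ insert j U` contains `j`.
`step`: `greedy` with `j = 0`; `cuts_ml` gives `Cuts w g`, `rank_pairs` with
`S = (P.map Prod.fst).toFinset` and `finrank_Rsp_le` give `(r+1)^U.card ≤ w < (r+1)^(κ+1)`.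
-/

set_option autoImplicit false

namespace Pool.Agent.MRG

open MvPolynomial
open Pool.Agent.AOI (Cut Cuts)

theorem mg_ml_comm {K : Type*} [Field K] {n : ℕ} (c : ℕ → K) (r : ℕ) (U : Finset ℕ)
    (x y : Fin n) (hxy : x ≠ y) (L : List (Fin n)) (hL : L.Nodup) (hx : x ∉ L) (hy : y ∉ L) :
    ∀ (j : ℕ) (f : MvPolynomial (Fin n) K),
      mg c r x y (ml c r U j L f) = ml c r U j L (mg c r x y f) := by
  match L, hL, hx, hy with
  | [], _, _, _ =>
    intro j f
    rw [ml_nil, ml_nil]
  | [a], _, _, _ =>
    intro j f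
    rw [ml_single, ml_single]
  | a :: b :: L', hL, hx, hy =>
    intro j f
    rw [List.nodup_cons, List.nodup_cons] at hL
    simp only [List.mem_cons, not_or] at hL hx hy
    have IH := mg_ml_comm c r U x y hxy L' hL.2.2 hx.2.2 hy.2.2 (j + 1)
    by_cases hj : j ∈ U
    · rw [ml_cons_mem c r U j a b L' hj, ml_cons_mem c r U j a b L' hj]
      exact IH f
    · rw [ml_cons_not_mem c r U j a b L' hj, ml_cons_not_mem c r U j a b L' hj, IH,
        mg_comm c r x y a b hxy hx.1 hx.2.1 hy.1 hy.2.1 hL.1.1 f]

private theorem ml_congr {K : Type*} [Field K] {n : ℕ} (c : ℕ → K) (r : ℕ) (U V : Finset ℕ)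
    (L : List (Fin n)) : ∀ (j : ℕ) (f : MvPolynomial (Fin n) K),
    (∀ i, j ≤ i → (i ∈ U ↔ i ∈ V)) → ml c r U j L f = ml c r V j L f := by
  match L with
  | [] =>
    intro j f _
    rw [ml_nil, ml_nil]
  | [a] =>
    intro j f _
    rw [ml_single, ml_single]
  | a :: b :: L' =>
    intro j f h
    have IH := ml_congr c r U V L' (j + 1)
    by_cases hj : j ∈ U
    · rw [ml_cons_mem c r U j a b L' hj, ml_cons_mem c r V j a b L' ((h j le_rfl).1 hj)]
      exact IH f fun i hi => h i (by omega)
    · have hj' : j ∉ V := fun h' => hj ((h j le_rfl).2 h')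
      rw [ml_cons_not_mem c r U j a b L' hj, ml_cons_not_mem c r V j a b L' hj']
      exact IH _ fun i hi => h i (by omega)

theorem greedy {K : Type*} [Field K] {n : ℕ} (c : ℕ → K) (r : ℕ) (L : List (Fin n))
    (hL : L.Nodup) : ∀ (j : ℕ) (f : MvPolynomial (Fin n) K), f ≠ 0 →
    ∃ (U : Finset ℕ) (P : List (Fin n × Fin n)),
      ml c r U j L f ≠ 0 ∧ P.length = U.card ∧ (∀ i ∈ U, j ≤ i ∧ i < j + L.length / 2) ∧
      (P.map Prod.fst ++ P.map Prod.snd).Nodup ∧ (∀ p ∈ P, p.1 ∈ L ∧ p.2 ∈ L) ∧
      (∀ p ∈ P, mg c r p.1 p.2 (ml c r U j L f) = 0) ∧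
      ∀ V : Finset ℕ, U ⊆ V → ml c r V j L f ≠ 0 := by
  classical
  match L, hL with
  | [], _ =>
    intro j f hf
    refine ⟨∅, [], ?_, rfl, ?_, ?_, ?_, ?_, ?_⟩
    · rwa [ml_nil]
    · intro i hi
      exact absurd hi (Finset.notMem_empty i)
    · exact List.nodup_nil
    · intro p hp
      exact absurd hp List.not_mem_nil
    · intro p hp
      exact absurd hp List.not_mem_nil
    · intro V _
      rwa [ml_nil]
  | [a], _ =>
    intro j f hf
    refine ⟨∅, [], ?_, rfl, ?_, ?_, ?_, ?_, ?_⟩
    · rwa [ml_single]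
    · intro i hi
      exact absurd hi (Finset.notMem_empty i)
    · exact List.nodup_nil
    · intro p hp
      exact absurd hp List.not_mem_nil
    · intro p hp
      exact absurd hp List.not_mem_nil
    · intro V _
      rwa [ml_single]
  | a :: b :: L', hL =>
    intro j f hf
    rw [List.nodup_cons, List.nodup_cons] at hL
    obtain ⟨ha, hb, hL'⟩ := hL
    have hab : a ≠ b := fun h => ha (by rw [h]; exact List.mem_cons_self)
    have haL : a ∉ L' := fun h => ha (List.mem_cons_of_mem _ h)
    have hlen : (a :: b :: L').length / 2 = L'.length / 2 + 1 := by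
      simp only [List.length_cons]
      omega
    by_cases hm : mg c r a b f = 0
    · obtain ⟨U, P, h1, h2, h3, h4, h5, h6, h7⟩ := greedy c r L' hL' (j + 1) f hf
      have hjU : j ∉ U := fun h => by
        have := (h3 j h).1
        omega
      have hml : ∀ g, ml c r (insert j U) j (a :: b :: L') g = ml c r U (j + 1) L' g := by
        intro g
        rw [ml_cons_mem c r _ j a b L' (Finset.mem_insert_self j U)]
        refine ml_congr c r _ _ L' (j + 1) g fun i hi => ?_
        rw [Finset.mem_insert]
        constructor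
        · rintro (h | h)
          · omega
          · exact h
        · exact fun h => Or.inr h
      refine ⟨insert j U, (a, b) :: P, ?_, ?_, ?_, ?_, ?_, ?_, ?_⟩
      · rw [hml]
        exact h1
      · rw [List.length_cons, h2, Finset.card_insert_of_notMem hjU]
      · intro i hi
        rw [hlen]
        rcases Finset.mem_insert.1 hi with h | h
        · omega
        · have := h3 i h
          omega
      · have hfst : ∀ x ∈ P.map Prod.fst, x ∈ L' := by
          intro x hx
          obtain ⟨p, hp, rfl⟩ := List.mem_map.1 hx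
          exact (h5 p hp).1
        have hsnd : ∀ x ∈ P.map Prod.snd, x ∈ L' := by
          intro x hx
          obtain ⟨p, hp, rfl⟩ := List.mem_map.1 hx
          exact (h5 p hp).2
        rw [List.nodup_append] at h4 ⊢
        obtain ⟨h41, h42, h43⟩ := h4
        simp only [List.map_cons]
        refine ⟨List.nodup_cons.2 ⟨fun h => haL (hfst a h), h41⟩,
          List.nodup_cons.2 ⟨fun h => hb (hsnd b h), h42⟩, ?_⟩
        intro x hx y hy
        rcases List.mem_cons.1 hx with h | h <;> rcases List.mem_cons.1 hy with h' | h'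
        · rw [h, h']
          exact hab
        · rw [h]
          intro h''
          exact haL (h'' ▸ hsnd y h')
        · rw [h']
          intro h''
          exact hb (h'' ▸ hfst x h)
        · exact h43 x h y h'
      · intro p hp
        rcases List.mem_cons.1 hp with h | h
        · rw [h]
          exact ⟨List.mem_cons_self, List.mem_cons_of_mem _ List.mem_cons_self⟩
        · exact ⟨List.mem_cons_of_mem _ (List.mem_cons_of_mem _ (h5 p h).1),
            List.mem_cons_of_mem _ (List.mem_cons_of_mem _ (h5 p h).2)⟩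
      · intro p hp
        rw [hml]
        rcases List.mem_cons.1 hp with h | h
        · rw [h]
          rw [mg_ml_comm c r U a b hab L' hL' haL hb (j + 1) f, hm, map_zero]
        · exact h6 p h
      · intro V hV
        rw [ml_cons_mem c r V j a b L' (hV (Finset.mem_insert_self j U))]
        exact h7 V fun i hi => hV (Finset.mem_insert_of_mem hi)
    · obtain ⟨U, P, h1, h2, h3, h4, h5, h6, h7⟩ := greedy c r L' hL' (j + 1) (mg c r a b f) hm
      have hjU : j ∉ U := fun h => by
        have := (h3 j h).1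
        omega
      refine ⟨U, P, ?_, h2, ?_, h4, ?_, ?_, ?_⟩
      · rw [ml_cons_not_mem c r U j a b L' hjU]
        exact h1
      · intro i hi
        rw [hlen]
        have := h3 i hi
        omega
      · intro p hp
        exact ⟨List.mem_cons_of_mem _ (List.mem_cons_of_mem _ (h5 p hp).1),
            List.mem_cons_of_mem _ (List.mem_cons_of_mem _ (h5 p hp).2)⟩
      · intro p hp
        rw [ml_cons_not_mem c r U j a b L' hjU]
        exact h6 p hp
      · intro V hV
        by_cases hjV : j ∈ V
        · rw [ml_cons_mem c r V j a b L' hjV]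
          intro h0
          have h8 := mg_ml_comm c r V a b hab L' hL' haL hb (j + 1) f
          rw [h0, map_zero] at h8
          exact h7 V hV h8.symm
        · rw [ml_cons_not_mem c r V j a b L' hjV]
          exact h7 V hV

theorem step {K : Type*} [Field K] {n w κ : ℕ} (c : ℕ → K) (r : ℕ)
    (hc : Set.InjOn c (Finset.range r : Set ℕ)) (L : List (Fin n)) (hL : L.Nodup)
    (f : MvPolynomial (Fin n) K) (hf : f ≠ 0) (hw : Cuts w f) (hκ : w < (r + 1) ^ (κ + 1)) :
    ∃ U : Finset ℕ, U.card ≤ κ ∧ (∀ i ∈ U, i < L.length / 2) ∧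
      ∀ V : Finset ℕ, U ⊆ V → ml c r V 0 L f ≠ 0 := by
  classical
  obtain ⟨U, P, h1, h2, h3, h4, h5, h6, h7⟩ := greedy c r L hL 0 f hf
  refine ⟨U, ?_, fun i hi => ?_, h7⟩
  · have hcut := cuts_ml c r U L 0 f hw
    have hS : ∀ p ∈ P, p.1 ∈ (P.map Prod.fst).toFinset ∧ p.2 ∉ (P.map Prod.fst).toFinset := by
      intro p hp
      rw [List.nodup_append] at h4
      refine ⟨List.mem_toFinset.2 (List.mem_map.2 ⟨p, hp, rfl⟩), fun h => ?_⟩
      exact h4.2.2 p.2 (List.mem_toFinset.1 h) p.2 (List.mem_map.2 ⟨p, hp, rfl⟩) rfl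
    have hr := rank_pairs c r hc (P.map Prod.fst).toFinset P _ h1 h4 hS h6
    have hr2 := finrank_Rsp_le (P.map Prod.fst).toFinset _ (hcut (P.map Prod.fst).toFinset)
    have h8 : (r + 1) ^ P.length < (r + 1) ^ (κ + 1) := lt_of_le_of_lt (hr.trans hr2) hκ
    have h9 : P.length < κ + 1 := by
      by_contra h
      exact absurd (Nat.pow_le_pow_right (by omega) (not_lt.1 h)) (not_le.2 h8)
    omega
  · have := h3 i hi
    omega

end Pool.Agent.MRG
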