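import Pool.Agent.MRG.Defs

/-!
MODULE MRG-Hull (est. 1.0 h).  Pure combinatorics: a finite set of points of `ℕ × ℕ` whose lower
hull has an edge of every slope `1, .., r` contains `r + 1` points in triangular position.

PLAN.  For `1 ≤ j ≤ r` let `M j` be the set of the minimizers in `Σ` of `a + j b`: nonempty, and with
at least two points, hence (same weight) with two different values of `b`.  Let `u j`, `l j` be a
point of `M j` with the largest, the smallest `b`: `(l j).2 < (u j).2`.  For `j < j'`, `p ∈ M j`,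
`q ∈ M j'`: `p.1 + j p.2 ≤ q.1 + j q.2` and `q.1 + j' q.2 ≤ p.1 + j' p.2`, so `q.2 ≤ p.2` (add; use
`nlinarith` or write `j' = j + 1 + t`).  So, with `P 0 = u 1` (any point of `Σ` if `r = 0`) and
`P i = l i` for `1 ≤ i ≤ r`: `(P j).2 < (P i).2` for `i < j` (`(l i).2 ≥ (u j).2 > (l j).2` for
`1 ≤ i < j` and `(u 1).2 ≥ (u j).2 > (l j).2`).  For `i < j` the point `((P i).1, (P j).2)` has, with
the weight `i` (weight `1` for `i = 0`), a value smaller than the minimum, so it is not in `Σ`.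
-/

set_option autoImplicit false

namespace Pool.Agent.MRG

private theorem hul_le {p q : ℕ × ℕ} {i j : ℕ} (hij : i < j) (h1 : p.1 + i * p.2 ≤ q.1 + i * q.2)
    (h2 : q.1 + j * q.2 ≤ p.1 + j * p.2) : q.2 ≤ p.2 := by
  obtain ⟨t, rfl⟩ := Nat.exists_eq_add_of_lt hij
  by_contra hc
  push Not at hc
  nlinarith [Nat.mul_le_mul_left t hc.le]

private theorem hul_key (Sg : Finset (ℕ × ℕ)) (hne : Sg.Nonempty) (j : ℕ)
    (h : ∀ p ∈ Sg, (∀ q ∈ Sg, p.1 + j * p.2 ≤ q.1 + j * q.2) →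
      ∃ q ∈ Sg, q ≠ p ∧ q.1 + j * q.2 = p.1 + j * p.2) :
    ∃ l u : ℕ × ℕ, l ∈ Sg ∧ u ∈ Sg ∧ (∀ q ∈ Sg, l.1 + j * l.2 ≤ q.1 + j * q.2) ∧
      (∀ q ∈ Sg, u.1 + j * u.2 ≤ q.1 + j * q.2) ∧ l.2 < u.2 := by
  obtain ⟨p, hp, hmin⟩ := Finset.exists_min_image Sg (fun p => p.1 + j * p.2) hne
  obtain ⟨q, hq, hqp, heq⟩ := h p hp hmin
  have hmin' : ∀ x ∈ Sg, q.1 + j * q.2 ≤ x.1 + j * x.2 := fun x hx => heq ▸ hmin x hx
  have hb : q.2 ≠ p.2 := by
    intro hb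
    apply hqp
    rw [hb] at heq
    exact Prod.ext (by omega) hb
  rcases lt_or_gt_of_ne hb with h1 | h1
  · exact ⟨q, p, hq, hp, hmin', hmin, h1⟩
  · exact ⟨p, q, hp, hq, hmin, hmin', h1⟩

theorem hull (Sg : Finset (ℕ × ℕ)) (hne : Sg.Nonempty) (r : ℕ)
    (h : ∀ j, 1 ≤ j → j ≤ r → ∀ p ∈ Sg, (∀ q ∈ Sg, p.1 + j * p.2 ≤ q.1 + j * q.2) →
      ∃ q ∈ Sg, q ≠ p ∧ q.1 + j * q.2 = p.1 + j * p.2) :
    ∃ a b : Fin (r + 1) → ℕ, (∀ i, (a i, b i) ∈ Sg) ∧ ∀ i j, i < j → (a i, b j) ∉ Sg := by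
  rcases Nat.eq_zero_or_pos r with hr | hr
  · subst hr
    obtain ⟨p, hp⟩ := hne
    refine ⟨fun _ => p.1, fun _ => p.2, fun _ => hp, ?_⟩
    intro i j hij
    exact absurd hij (by omega)
  · have key : ∀ j, 1 ≤ j → j ≤ r → ∃ l u : ℕ × ℕ, l ∈ Sg ∧ u ∈ Sg ∧
        (∀ q ∈ Sg, l.1 + j * l.2 ≤ q.1 + j * q.2) ∧
        (∀ q ∈ Sg, u.1 + j * u.2 ≤ q.1 + j * q.2) ∧ l.2 < u.2 :=
      fun j h1 h2 => hul_key Sg hne j (h j h1 h2)
    choose! l u hl hu hlm hum hlu using key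
    have hP : ∃ Q : ℕ → ℕ × ℕ, Q 0 = u 1 ∧ ∀ i, 1 ≤ i → Q i = l i :=
      ⟨fun i => if i = 0 then u 1 else l i, by simp, fun i hi => if_neg (by omega)⟩
    obtain ⟨Q, hQ0, hQ⟩ := hP
    have hmem : ∀ i, i ≤ r → Q i ∈ Sg := by
      intro i hi
      rcases Nat.eq_zero_or_pos i with h0 | h0
      · rw [h0, hQ0]
        exact hu 1 le_rfl hr
      · rw [hQ i h0]
        exact hl i h0 hi
    have hlt : ∀ i j, i < j → j ≤ r → (Q j).2 < (Q i).2 := by
      intro i j hij hj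
      rw [hQ j (by omega)]
      rcases Nat.eq_zero_or_pos i with h0 | h0
      · rw [h0, hQ0]
        rcases Nat.lt_or_ge 1 j with h1 | h1
        · exact lt_of_lt_of_le (hlu j (by omega) hj)
            (hul_le h1 (hum 1 le_rfl hr _ (hu j (by omega) hj)) (hum j (by omega) hj _ (hu 1 le_rfl hr)))
        · have e : j = 1 := by omega
          rw [e]
          exact hlu 1 le_rfl hr
      · rw [hQ i h0]
        exact lt_of_lt_of_le (hlu j (by omega) hj)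
          (hul_le hij (hlm i h0 (by omega) _ (hu j (by omega) hj))
            (hum j (by omega) hj _ (hl i h0 (by omega))))
    have hmn : ∀ i, i ≤ r → ∃ w, 1 ≤ w ∧ ∀ q ∈ Sg, (Q i).1 + w * (Q i).2 ≤ q.1 + w * q.2 := by
      intro i hi
      rcases Nat.eq_zero_or_pos i with h0 | h0
      · rw [h0, hQ0]
        exact ⟨1, le_rfl, hum 1 le_rfl hr⟩
      · rw [hQ i h0]
        exact ⟨i, h0, hlm i h0 hi⟩
    refine ⟨fun i => (Q i).1, fun i => (Q i).2, fun i => hmem i (by omega), ?_⟩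
    intro i j hij hc
    obtain ⟨w, hw, hmin⟩ := hmn i (by omega)
    have h1 := hmin _ hc
    have h2 := hlt i j hij (by omega)
    simp only at h1
    have h3 : w * (Q j).2 < w * (Q i).2 := Nat.mul_lt_mul_of_pos_left h2 hw
    omega

end Pool.Agent.MRG
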