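import Pool.Agent.AOI.Low

/-!
MODULE MRG-LowQ (est. 0.8 h).  `Pool.Agent.AOI.low` with a general quotient `q ≥ 3` instead of `4`
(`4` and `3 = 4 - 1`).  Port the proof of `low` (at the end of `Pool/Agent/AOI/Low.lean`, 100 lines):
case (b): `q * finrank V0 ≤ (q - 1) * finrank V`; case (a): `(q - 1) * finrank V < q * finrank V0`,
`adj_le` with `j = (q - 1) * d` gives `finrank V' + (q - 1) d finrank V0 ≤ q d finrank V`, so
`finrank V' ≤ 2 d finrank V` (`q * finrank V' ≤ (q^2 - (q-1)^2) d finrank V`), and
`2^k' finrank V' ≤ d 2^(k'+1) finrank V < d q^(k'+1) finrank M = q^k' finrank M'`; the induction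
hypothesis `q^N finrank M' ≤ (q-1)^N finrank V'` and `finrank M' = q d finrank M` give
`q^(N+1) finrank M ≤ 2 (q-1)^N finrank V ≤ (q-1)^(N+1) finrank V`.
-/

set_option autoImplicit false

namespace Pool.Agent.MRG

open Module Submodule Pool.Agent.AOI

variable {K L : Type*} [Field K] [Field L] [Algebra K L]

private theorem lowq_aux [Infinite K] {d Q : ℕ} (hd : 1 ≤ d) (hQ : 2 ≤ Q) : ∀ (N k : ℕ) (p : Fin N → L)
    (c : (Fin N → Fin (d + 1)) → L) (M : Submodule K L) [FiniteDimensional K M],
    1 ≤ finrank K M → Ind ((Q + 1) * d) N k p M → c ≠ 0 → Vans c p →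
    2 ^ k * finrank K (M * Es K c : Submodule K L) < (Q + 1) ^ k * finrank K M →
    (Q + 1) ^ N * finrank K M ≤ Q ^ N * finrank K (M * Es K c : Submodule K L) := by
  intro N
  induction N with
  | zero =>
    intro k p c M _ hM _ hc _ _
    simpa using finrank_le_mul M c hc
  | succ N ih =>
    intro k p c M _ hM hInd hc hv hlt
    obtain ⟨b, hb⟩ := exists_spec_ne (K := K) c hc
    set V : Submodule K L := M * Es K c with hV
    set V0 : Submodule K L := M * Es K (spec c b) with hV0
    have hle : V0 ≤ V := mul_le_mul' le_rfl (Es_spec_le c b)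
    have hρ : finrank K V0 ≤ finrank K V := Submodule.finrank_mono hle
    rcases le_or_gt ((Q + 1) * finrank K V0) (Q * finrank K V) with hcase | hcase
    · have h1 := ih k (Fin.tail p) (spec c b) M hM hInd.1 hb (hv.spec b)
        ((Nat.mul_le_mul_left _ hρ).trans_lt hlt)
      rw [← hV0] at h1
      calc (Q + 1) ^ (N + 1) * finrank K M = (Q + 1) * ((Q + 1) ^ N * finrank K M) := by ring
        _ ≤ (Q + 1) * (Q ^ N * finrank K V0) := Nat.mul_le_mul_left _ h1
        _ = Q ^ N * ((Q + 1) * finrank K V0) := by ring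
        _ ≤ Q ^ N * (Q * finrank K V) := Nat.mul_le_mul_left _ hcase
        _ = Q ^ (N + 1) * finrank K V := by ring
    · have hMV : finrank K M ≤ finrank K V := finrank_le_mul M c hc
      obtain ⟨k', rfl⟩ : ∃ k', k = k' + 1 := by
        rcases Nat.eq_zero_or_pos k with h | h
        · subst h
          simp at hlt
          omega
        · exact ⟨k - 1, by omega⟩
      obtain ⟨hM', hInd'⟩ := hInd.2 k' rfl
      set M' : Submodule K L := M * Pw K ((Q + 1) * d) (p 0) with hM'def
      set V' : Submodule K L := M' * Es K (spec c b) with hV'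
      have hVle : V' ≤ Pw K ((Q + 1) * d) (p 0) * V := by
        rw [hV', hM'def, mul_comm M, mul_assoc]
        exact mul_le_mul' le_rfl hle
      have hq : V0 ≤ span K {p 0 - algebraMap K L b} * (Pw K d (p 0) * V) := by
        have h2 : V0 ≤ M * (span K {p 0 - algebraMap K L b} * (Pw K d (p 0) * Es K c)) :=
          mul_le_mul' le_rfl (Es_spec_sub hv b)
        refine h2.trans (le_of_eq ?_)
        rw [hV]
        ring
      have hadj := adj_le V V0 hle (p 0) b d hq (Q * d)
      have h43 : d + Q * d = (Q + 1) * d := by ring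
      rw [h43] at hadj
      have hV'le : finrank K V' ≤ finrank K (Pw K ((Q + 1) * d) (p 0) * V : Submodule K L) :=
        Submodule.finrank_mono hVle
      obtain ⟨P, hP⟩ : ∃ P, P = finrank K (Pw K ((Q + 1) * d) (p 0) * V : Submodule K L) := ⟨_, rfl⟩
      rw [← hP] at hadj hV'le
      -- `finrank V' ≤ 2 * d * finrank V`
      have h7 : finrank K V' ≤ 2 * d * finrank K V := by
        have h8 : Q * d * (Q * finrank K V) ≤ Q * d * ((Q + 1) * finrank K V0) :=
          Nat.mul_le_mul_left _ hcase.le
        have h9 : (Q + 1) * (P + Q * d * finrank K V0) ≤ (Q + 1) * ((Q + 1) * d * finrank K V) :=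
          Nat.mul_le_mul_left _ hadj
        have h10 : (Q + 1) * P ≤ (Q + 1) * (2 * d * finrank K V) := by
          have e1 : (Q + 1) * (P + Q * d * finrank K V0) =
            (Q + 1) * P + Q * d * ((Q + 1) * finrank K V0) := by ring
          have e2 : (Q + 1) * ((Q + 1) * d * finrank K V) =
            Q * d * (Q * finrank K V) + (2 * Q + 1) * (d * finrank K V) := by ring
          have e3 : (Q + 1) * (2 * d * finrank K V) = (2 * Q + 2) * (d * finrank K V) := by ring
          have e4 : (2 * Q + 1) * (d * finrank K V) ≤ (2 * Q + 2) * (d * finrank K V) :=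
            Nat.mul_le_mul_right _ (by omega)
          rw [e1, e2] at h9
          rw [e3]
          omega
        exact hV'le.trans (Nat.le_of_mul_le_mul_left h10 (by omega))
      have hlt' : 2 ^ k' * finrank K V' < (Q + 1) ^ k' * finrank K M' := by
        rw [hM']
        calc 2 ^ k' * finrank K V' ≤ 2 ^ k' * (2 * d * finrank K V) := Nat.mul_le_mul_left _ h7
          _ = d * (2 ^ (k' + 1) * finrank K V) := by ring
          _ < d * ((Q + 1) ^ (k' + 1) * finrank K M) := Nat.mul_lt_mul_of_pos_left hlt (by omega)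
          _ = (Q + 1) ^ k' * ((Q + 1) * d * finrank K M) := by ring
      have hpos : 0 < (Q + 1) * d := Nat.mul_pos (by omega) (by omega)
      have h1 := ih k' (Fin.tail p) (spec c b) M' (by rw [hM']; exact Nat.mul_pos hpos hM)
        hInd' hb (hv.spec b) (by rw [← hV']; exact hlt')
      rw [← hV', hM'] at h1
      have h13 : d * ((Q + 1) ^ (N + 1) * finrank K M) ≤ d * (Q ^ (N + 1) * finrank K V) := by
        calc d * ((Q + 1) ^ (N + 1) * finrank K M) = (Q + 1) ^ N * ((Q + 1) * d * finrank K M) := by ring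
          _ ≤ Q ^ N * finrank K V' := h1
          _ ≤ Q ^ N * (2 * d * finrank K V) := Nat.mul_le_mul_left _ h7
          _ ≤ Q ^ N * (Q * d * finrank K V) := by gcongr
          _ = d * (Q ^ (N + 1) * finrank K V) := by ring
      exact Nat.le_of_mul_le_mul_left h13 (by omega)

theorem lowq [Infinite K] {d q : ℕ} (hd : 1 ≤ d) (hq : 3 ≤ q) : ∀ (N k : ℕ) (p : Fin N → L)
    (c : (Fin N → Fin (d + 1)) → L) (M : Submodule K L) [FiniteDimensional K M],
    1 ≤ finrank K M → Ind (q * d) N k p M → c ≠ 0 → Vans c p →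
    2 ^ k * finrank K (M * Es K c : Submodule K L) < q ^ k * finrank K M →
    q ^ N * finrank K M ≤ (q - 1) ^ N * finrank K (M * Es K c : Submodule K L) := by
  obtain ⟨Q, rfl⟩ : ∃ Q, q = Q + 1 := ⟨q - 1, by omega⟩
  intro N k p c M _ h1 h2 h3 h4 h5
  rw [Nat.add_sub_cancel]
  exact lowq_aux hd (by omega) N k p c M h1 h2 h3 h4 h5

end Pool.Agent.MRG
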