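import Pool.Agent.MRG.LowQ
import Pool.Agent.AOI.LowT

/-!
MODULE MRG-LowT (est. 0.7 h).  Port of `Pool.Agent.AOI.card_le` (`Pool/Agent/AOI/LowT.lean`) to the
quotient `q`: copy the proof, replace `4 * d` by `q * d`, `k0 w` by `k`, `low` by `lowq` (its last
hypothesis: `2^k * w < q^k`, `finrank (Es) ≤ w`), and the arithmetic at the end by:
`q^N ≤ (q-1)^N * w` implies `N ≤ q * (log_2 w + 1)`: otherwise `N = q m + s` with `m = log_2 w + 1`,
and `2 (q-1)^q ≤ q^q` (Bernoulli: `(1 + 1/(q-1))^q ≥ 2`; in `ℕ`: `one_add_mul_le_pow` for rationals,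
or `q^q = ((q-1)+1)^q ≥ (q-1)^q + q (q-1)^(q-1)`) gives `q^N ≥ 2^m (q-1)^N > w (q-1)^N`.
-/

set_option autoImplicit false

namespace Pool.Agent.MRG

open MvPolynomial Pool.Agent.AOI

private theorem lq_pow (a : ℕ) : ∀ n : ℕ, a ^ n * (a + n) ≤ (a + 1) ^ n * a := by
  intro n
  induction n with
  | zero => simp
  | succ n ih =>
    have h1 : a ^ (n + 1) * (a + (n + 1)) ≤ (a + 1) * (a ^ n * (a + n)) := by
      have e : (a + 1) * (a ^ n * (a + n)) = a ^ (n + 1) * (a + (n + 1)) + a ^ n * n := by ring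
      rw [e]
      exact Nat.le_add_right _ _
    calc a ^ (n + 1) * (a + (n + 1)) ≤ (a + 1) * (a ^ n * (a + n)) := h1
      _ ≤ (a + 1) * ((a + 1) ^ n * a) := Nat.mul_le_mul_left _ ih
      _ = (a + 1) ^ (n + 1) * a := by ring

private theorem lq_two {a : ℕ} (ha : 1 ≤ a) : 2 * a ^ (a + 1) ≤ (a + 1) ^ (a + 1) := by
  have h1 := lq_pow a (a + 1)
  have h2 : 2 * a ^ (a + 1) * a ≤ a ^ (a + 1) * (a + (a + 1)) := by
    have e : a ^ (a + 1) * (a + (a + 1)) = 2 * a ^ (a + 1) * a + a ^ (a + 1) := by ring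
    rw [e]
    exact Nat.le_add_right _ _
  exact Nat.le_of_mul_le_mul_right (h2.trans h1) ha

private theorem lq_arith {N q w : ℕ} (hq : 3 ≤ q) (h : q ^ N ≤ (q - 1) ^ N * w) :
    N ≤ q * (Nat.log 2 w + 1) := by
  have hw : w < 2 ^ (Nat.log 2 w + 1) := Nat.lt_pow_succ_log_self (by norm_num) w
  obtain ⟨m, hm⟩ : ∃ m, m = Nat.log 2 w + 1 := ⟨_, rfl⟩
  rw [← hm] at hw ⊢
  by_contra hcon
  obtain ⟨r, rfl⟩ : ∃ r, N = q * m + r := ⟨N - q * m, by omega⟩
  obtain ⟨a, rfl⟩ : ∃ a, q = a + 1 := ⟨q - 1, by omega⟩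
  have ha : 1 ≤ a := by omega
  rw [Nat.add_sub_cancel] at h
  have h1 : a ^ ((a + 1) * m + r) * w < a ^ ((a + 1) * m + r) * 2 ^ m :=
    Nat.mul_lt_mul_of_pos_left hw (pow_pos ha _)
  have h2 : a ^ ((a + 1) * m + r) * 2 ^ m = (2 * a ^ (a + 1)) ^ m * a ^ r := by
    rw [pow_add, pow_mul, mul_pow]
    ring
  have h3 : (a + 1) ^ ((a + 1) * m + r) = ((a + 1) ^ (a + 1)) ^ m * (a + 1) ^ r := by
    rw [pow_add, pow_mul]
  have h4 : (2 * a ^ (a + 1)) ^ m * a ^ r ≤ ((a + 1) ^ (a + 1)) ^ m * (a + 1) ^ r :=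
    Nat.mul_le_mul (Nat.pow_le_pow_left (lq_two ha) _) (Nat.pow_le_pow_left (by omega) _)
  omega

theorem card_leq {K L : Type*} [Field K] [Infinite K] [Field L] [Algebra K L] {n w d q k : ℕ}
    (hd1 : 1 ≤ d) (hq : 3 ≤ q) (hk : 2 ^ k * w < q ^ k) (f : MvPolynomial (Fin n) K)
    (hd : ∀ i, f.degreeOf i ≤ d) (P : Fin n → L) (hP : IndP K (q * d) k P) (T : Finset (Fin n))
    (hT : ps f P T ≠ 0) (hmin : ∀ i ∈ T, ps f P (T.erase i) = 0) (hcut : Cut w T f) :
    T.card ≤ q * (Nat.log 2 w + 1) := by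
  classical
  obtain ⟨N, hN⟩ : ∃ N, N = T.card := ⟨_, rfl⟩
  obtain ⟨ι, hιinj, hιT, hιs⟩ : ∃ ι : Fin N → Fin n, Function.Injective ι ∧ (∀ j, ι j ∈ T) ∧
      ∀ i ∈ T, ∃ j, ι j = i := by
    refine ⟨fun j => T.orderEmbOfFin hN.symm j, (T.orderEmbOfFin hN.symm).injective,
      fun j => Finset.orderEmbOfFin_mem T hN.symm j, fun i hi => ?_⟩
    have h1 := Finset.range_orderEmbOfFin T hN.symm
    have h2 : i ∈ Set.range (T.orderEmbOfFin hN.symm) := by
      rw [h1]
      exact hi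
    exact h2
  set e : (Fin N → Fin (d + 1)) → (Fin n →₀ ℕ) := fun α => ∑ j, Finsupp.single (ι j) (α j : ℕ)
    with he
  have he1 : ∀ α j, e α (ι j) = (α j : ℕ) := by
    intro α j
    rw [he]
    simp only [Finsupp.finsetSum_apply]
    rw [Finset.sum_eq_single j]
    · rw [Finsupp.single_eq_same]
    · intro j' _ hj'
      exact Finsupp.single_eq_of_ne' fun h => hj' (hιinj h)
    · intro h
      exact absurd (Finset.mem_univ _) h
  have he2 : ∀ α i, i ∉ T → e α i = 0 := by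
    intro α i hi
    rw [he]
    simp only [Finsupp.finsetSum_apply]
    refine Finset.sum_eq_zero fun j _ => ?_
    exact Finsupp.single_eq_of_ne' fun h => hi (h ▸ hιT j)
  have hdq : ∀ i, (ps f P T).degreeOf i ≤ d := fun i => (ps_degreeOf f P T i).trans (hd i)
  set c : (Fin N → Fin (d + 1)) → L := fun α => coeff (e α) (ps f P T) with hc
  have hcne : c ≠ 0 := by
    obtain ⟨μ, hμ⟩ := MvPolynomial.ne_zero_iff.1 hT
    have hs : μ.support ⊆ T := ps_support f P T μ hμ
    have hb : ∀ i, μ i ≤ d := fun i =>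
      (monomial_le_degreeOf i (mem_support_iff.2 hμ)).trans (hdq i)
    intro h0
    apply hμ
    have h1 := congrFun h0 (fun j => ⟨μ (ι j), Nat.lt_succ_of_le (hb _)⟩)
    rw [hc] at h1
    simp only [Pi.zero_apply] at h1
    rw [← h1]
    congr 1
    ext i
    by_cases hi : i ∈ T
    · obtain ⟨j, rfl⟩ := hιs i hi
      rw [he1]
    · rw [he2 _ _ hi]
      exact Finsupp.notMem_support_iff.1 fun h => hi (hs h)
  have hv : Vans c (P ∘ ι) := by
    intro i α
    have h1 := hmin _ (hιT i)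
    rw [ps_erase f P T (ι i) (hιT i)] at h1
    have hμ0 : (∑ j ∈ Finset.univ.erase i, Finsupp.single (ι j) (α j : ℕ)) (ι i) = 0 := by
      rw [Finsupp.finsetSum_apply]
      refine Finset.sum_eq_zero fun j hj => ?_
      exact Finsupp.single_eq_of_ne' fun h => (Finset.mem_erase.1 hj).1 (hιinj h)
    have h2 := sum_coeff (ps f P T) (ι i) (P (ι i)) d (hdq _) h1 _ hμ0
    rw [← h2]
    refine Finset.sum_congr rfl fun l _ => ?_
    have h3 : e (Function.update α i l) =
        (∑ j ∈ Finset.univ.erase i, Finsupp.single (ι j) (α j : ℕ)) +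
          Finsupp.single (ι i) (l : ℕ) := by
      rw [he]
      simp only
      rw [← Finset.sum_erase_add _ _ (Finset.mem_univ i), Function.update_self]
      congr 1
      refine Finset.sum_congr rfl fun j hj => ?_
      rw [Function.update_of_ne (Finset.mem_erase.1 hj).1]
    rw [hc]
    simp only [Function.comp_apply]
    rw [h3]
  obtain ⟨η, hη⟩ := coeff_ps_mem f P T hcut
  have hE : Module.finrank K (Es K c) ≤ w := by
    have h1 : Es K c ≤ Submodule.span K (Set.range η) := by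
      refine Submodule.span_le.2 ?_
      rintro _ ⟨α, rfl⟩
      exact hη _
    haveI : FiniteDimensional K (Submodule.span K (Set.range η)) :=
      FiniteDimensional.span_of_finite K (Set.finite_range _)
    refine (Submodule.finrank_mono h1).trans ((finrank_range_le_card η).trans ?_)
    rw [Fintype.card_fin]
  have hone : Module.finrank K (1 : Submodule K L) = 1 := by
    rw [Submodule.one_eq_span]
    exact finrank_span_singleton one_ne_zero
  haveI : FiniteDimensional K (1 : Submodule K L) := by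
    rw [Submodule.one_eq_span]
    infer_instance
  have hInd : Ind (q * d) N k (P ∘ ι) (1 : Submodule K L) := by
    have h1 := ind_of P hP N k ι hιinj ∅ (by simp) (by simp)
    rwa [Finset.prod_empty] at h1
  have h1 := lowq hd1 hq N k (P ∘ ι) c 1 (by rw [hone]) hInd hcne hv
    (by rw [one_mul, hone, mul_one]; exact (Nat.mul_le_mul_left _ hE).trans_lt hk)
  rw [one_mul, hone, mul_one] at h1
  rw [← hN]
  exact lq_arith hq (h1.trans (Nat.mul_le_mul_left _ hE))

end Pool.Agent.MRG
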