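import Pool.Agent.MRG.Hit
import Pool.Agent.MRG.Sched
import Pool.Agent.MRG.Iso
import Pool.Agent.MRG.LowT
import Pool.Agent.MRG.Card
import Pool.Agent.AOI.Main

/-!
Project MRG: the main theorem.
-/

set_option autoImplicit false

namespace Pool.Agent.MRG

open MvPolynomial
open Pool.Agent.AOI (Cut Cuts sh gL exists_minT exists_coeff_sh exists_t indP_gL)
open Pool.Agent.SPD (hitPt)

theorem kq_spec (w : ℕ) : 2 ^ kq w * w < qq w ^ kq w := by
  have hK : 0 < KK w := Nat.succ_pos _
  have h1 : qq w ^ kq w = 2 ^ kq w * 2 ^ (KK w * kq w) := by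
    unfold qq
    rw [← pow_mul, ← pow_add]
    congr 1
    ring
  rw [h1]
  refine Nat.mul_lt_mul_of_pos_left ?_ (by positivity)
  refine (Nat.lt_pow_succ_log_self (b := 2) (by norm_num) w).trans_le ?_
  refine Nat.pow_le_pow_right (by norm_num) ?_
  unfold kq
  have h2 := Nat.div_add_mod (Nat.log 2 w) (KK w)
  have h3 := Nat.mod_lt (Nat.log 2 w) hK
  rw [mul_add, mul_one]
  omega

theorem three_le_qq (w : ℕ) : 3 ≤ qq w := by
  unfold qq KK
  have h : (2 : ℕ) ^ 2 ≤ 2 ^ (Nat.sqrt (Nat.log 2 w) + 1 + 1) :=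
    Nat.pow_le_pow_right (by norm_num) (by omega)
  omega

theorem wt_mono (D n : ℕ) {i j : ℕ} (h : i ≤ j) : wt D n i ≤ wt D n j := by
  unfold wt
  have h2 : i ^ 2 ≤ j ^ 2 := Nat.pow_le_pow_left h 2
  have h3 := Nat.mul_le_mul_left (D + 1) h
  have h4 := Nat.mul_le_mul_left ((D + 1) * (n * D + 1)) h2
  omega

theorem main {K : Type*} [Field K] [CharZero K] {n d w : ℕ} (hd1 : 1 ≤ d) (hw1 : 1 ≤ w)
    (f : MvPolynomial (Fin n) K) (hf : f ≠ 0) (hd : ∀ i, f.degreeOf i ≤ d) (hw : Cuts w f) :
    ∃ x ∈ points n d w, eval (fun i => ((x i : ℕ) : K)) f ≠ 0 := by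
  classical
  obtain ⟨T, hT, hmin⟩ := exists_minT f hf (gL K n (s1 d w))
  have hTc : T.card ≤ tau w := card_leq hd1 (three_le_qq w) (kq_spec w) f hd _
    (indP_gL n (m := qq w * d) (k := kq w)
      (Nat.mul_pos (lt_of_lt_of_le (by norm_num) (three_le_qq w)) hd1) le_rfl) T hT hmin (hw T)
  obtain ⟨a, haT, ha⟩ := exists_coeff_sh f _ T hT
  obtain ⟨t, ht, htne⟩ := exists_t f hd a ha
  set p : Fin n → K := fun i => ((hitPt (n * s1 d w ^ 2) ((i : ℕ) + 1) t : ℕ) : K) with hp
  set F := sh f p with hF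
  have hFd : F.totalDegree ≤ n * d :=
    AOI.totalDegree_le F fun i => (AOI.sh_degreeOf f p i).trans (hd i)
  obtain ⟨p', hp', a', ha', hinj⟩ := AOR.level_zero n (tau w) a.support
    ((Finset.card_le_card haT).trans hTc)
  have hinj' : Set.InjOn (fun i : Fin n => colr w p' a' i) (a.support : Set (Fin n)) := by
    intro i hi j hj hij
    exact hinj hi hj (congrArg Fin.val hij)
  set G : MvPolynomial (Fin (tau w ^ 2)) K :=
    aeval (fun i => (X (colr w p' a' i) : MvPolynomial (Fin (tau w ^ 2)) K) ^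
      wt (n * d) n (i : ℕ)) F with hG
  have hG0 : G ≠ 0 := iso F hFd a htne (fun i => colr w p' a' i) hinj'
  have hGc : Cuts w G := by
    refine cuts_subst (fun i => colr w p' a' i) _ ?_ F (hw.sh p)
    intro i
    refine (vars_pow _ _).trans ?_
    rw [vars_X]
  have hGd : G.totalDegree ≤ n * d * wt (n * d) n n := by
    refine (totalDegree_aeval_le _ (wt (n * d) n n) ?_ F).trans (Nat.mul_le_mul_right _ hFd)
    intro i
    refine (totalDegree_pow _ _).trans ?_
    rw [totalDegree_X, mul_one]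
    exact wt_mono _ _ i.2.le
  obtain ⟨x, hx, hxne⟩ := hit (Nat.castRingHom K) (fun j => j + 1)
    (fun i j hij => by
      have h1 : ((i + 1 : ℕ) : K) = ((j + 1 : ℕ) : K) := hij
      have h2 := Nat.cast_injective h1
      omega)
    (sched w (tau w ^ 2)) (tau w ^ 2) (List.finRange (tau w ^ 2)) G (n * d * wt (n * d) n n)
    (TT n d w) (List.nodup_finRange _) (by rw [List.length_finRange]) (good_sched w _ hw1) hG0 hGc
    (by intro i _; simp) hGd le_rfl
  refine ⟨point n d w t p' a' x, ?_, ?_⟩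
  · unfold points
    rw [Finset.mem_image]
    refine ⟨(t, p', a', x), ?_, rfl⟩
    simp only [Finset.mem_product, Finset.mem_range]
    exact ⟨Nat.lt_succ_of_le ht, Nat.lt_succ_of_le hp', Nat.lt_succ_of_le ha', hx⟩
  · have heq : (fun i => ((point n d w t p' a' x i : ℕ) : K)) = fun i => p i +
        ((x (colr w p' a' i) : ℕ) : K) ^ wt (n * d) n (i : ℕ) := by
      funext i
      rw [hp]
      unfold point
      push_cast
      rfl
    rw [heq, ← AOI.eval_sh f p]
    have h1 : eval (fun j => Nat.castRingHom K (x j)) G =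
        eval (fun i => ((x (colr w p' a' i) : ℕ) : K) ^ wt (n * d) n (i : ℕ)) F := by
      rw [hG]
      have h2 : ∀ H : MvPolynomial (Fin n) K,
          eval (fun j => Nat.castRingHom K (x j)) (aeval (fun i =>
            (X (colr w p' a' i) : MvPolynomial (Fin (tau w ^ 2)) K) ^ wt (n * d) n (i : ℕ)) H) =
          eval (fun i => ((x (colr w p' a' i) : ℕ) : K) ^ wt (n * d) n (i : ℕ)) H := by
        intro H
        induction H using MvPolynomial.induction_on with
        | C b => simp
        | add f g hf hg => rw [map_add, map_add, map_add, hf, hg]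
        | mul_X f i hf => rw [map_mul, map_mul, map_mul, hf]; simp
      exact h2 F
    rw [← h1]
    exact hxne

end Pool.Agent.MRG
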