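import Pool.Agent.MRG.Defs

/-!
Project MRG: the coefficient `pc x y a b f` of `x^a y^b` in `f`.
-/

set_option autoImplicit false

namespace Pool.Agent.MRG

open MvPolynomial

theorem coeff_pc {K : Type*} [Field K] {n : ℕ} (x y : Fin n) (hxy : x ≠ y) (a b : ℕ)
    (f : MvPolynomial (Fin n) K) (m : Fin n →₀ ℕ) :
    coeff m (pc x y a b f) = if m x = 0 ∧ m y = 0 then
      coeff (m + Finsupp.single x a + Finsupp.single y b) f else 0 := by
  classical
  unfold pc
  rw [coeff_sum]
  simp only [coeff_monomial]
  split_ifs with h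
  · have hMx : (m + Finsupp.single x a + Finsupp.single y b) x = a := by
      simp [h.1, Finsupp.single_apply, hxy.symm]
    have hMy : (m + Finsupp.single x a + Finsupp.single y b) y = b := by
      simp [h.2, Finsupp.single_apply, hxy]
    have hMe : ((m + Finsupp.single x a + Finsupp.single y b).erase x).erase y = m := by
      ext i
      by_cases hiy : i = y
      · subst hiy
        rw [Finsupp.erase_same, h.2]
      · rw [Finsupp.erase_ne hiy]
        by_cases hix : i = x
        · subst hix
          rw [Finsupp.erase_same, h.1]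
        · rw [Finsupp.erase_ne hix]
          simp [Finsupp.single_apply, Ne.symm hix, Ne.symm hiy]
    rw [Finset.sum_eq_single (m + Finsupp.single x a + Finsupp.single y b)]
    · rw [if_pos hMe]
    · intro m' hm' hne
      rw [if_neg]
      intro heq
      apply hne
      rw [Finset.mem_filter] at hm'
      ext i
      rw [← heq]
      by_cases hiy : i = y
      · subst hiy
        simp [hm'.2.2, Finsupp.single_apply, hxy]
      · by_cases hix : i = x
        · subst hix
          simp [hm'.2.1, Finsupp.single_apply, Ne.symm hiy, Finsupp.erase_ne hiy]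
        · simp [Finsupp.single_apply, Ne.symm hix, Ne.symm hiy, Finsupp.erase_ne hiy,
            Finsupp.erase_ne hix]
    · intro hM
      rw [if_pos hMe]
      rw [Finset.mem_filter, not_and_or] at hM
      rcases hM with hM | hM
      · rwa [mem_support_iff, not_not] at hM
      · exact absurd ⟨hMx, hMy⟩ hM
  · apply Finset.sum_eq_zero
    intro m' _
    rw [if_neg]
    rintro rfl
    apply h
    refine ⟨?_, Finsupp.erase_same⟩
    rw [Finsupp.erase_ne hxy, Finsupp.erase_same]

theorem pc_ne_zero {K : Type*} [Field K] {n : ℕ} (x y : Fin n) (hxy : x ≠ y) (a b : ℕ)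
    (f : MvPolynomial (Fin n) K) (h : ∃ m ∈ f.support, m x = a ∧ m y = b) :
    pc x y a b f ≠ 0 := by
  classical
  obtain ⟨m, hm, rfl, rfl⟩ := h
  intro h0
  have h1 := coeff_pc x y hxy (m x) (m y) f ((m.erase x).erase y)
  rw [h0, coeff_zero, if_pos] at h1
  · have h2 : (m.erase x).erase y + Finsupp.single x (m x) + Finsupp.single y (m y) = m := by
      ext i
      by_cases hiy : i = y
      · subst hiy
        simp [Finsupp.single_apply, hxy]
      · by_cases hix : i = x
        · subst hix
          simp [Finsupp.single_apply, Ne.symm hiy, Finsupp.erase_ne hiy]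
        · simp [Finsupp.single_apply, Ne.symm hix, Ne.symm hiy, Finsupp.erase_ne hiy,
            Finsupp.erase_ne hix]
    rw [h2] at h1
    exact (mem_support_iff.1 hm) h1.symm
  · refine ⟨?_, Finsupp.erase_same⟩
    rw [Finsupp.erase_ne hxy, Finsupp.erase_same]

private theorem pc_add {K : Type*} [Field K] {n : ℕ} (x y : Fin n) (hxy : x ≠ y) (a b : ℕ)
    (f g : MvPolynomial (Fin n) K) : pc x y a b (f + g) = pc x y a b f + pc x y a b g := by
  ext m
  rw [coeff_add, coeff_pc x y hxy, coeff_pc x y hxy, coeff_pc x y hxy, coeff_add]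
  split_ifs <;> simp

private theorem coeff_supp {K : Type*} [Field K] {n : ℕ} {x y : Fin n}
    {g : MvPolynomial (Fin n) K} (hg : g ∈ supported K ({x, y}ᶜ : Set (Fin n)))
    (m : Fin n →₀ ℕ) (hm : m x ≠ 0 ∨ m y ≠ 0) : coeff m g = 0 := by
  by_contra hne
  rw [mem_supported] at hg
  have hsub : ∀ i, m i ≠ 0 → i ∈ ({x, y}ᶜ : Set (Fin n)) := by
    intro i hi
    apply hg
    rw [Finset.mem_coe, mem_vars_iff_mem_support]
    exact ⟨m, mem_support_iff.2 hne, Finsupp.mem_support_iff.2 hi⟩
  rcases hm with h | h
  · exact hsub x h (by simp)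
  · exact hsub y h (by simp)

private theorem pc_mul {K : Type*} [Field K] {n : ℕ} (x y : Fin n) (hxy : x ≠ y) (a b a' b' : ℕ)
    (g : MvPolynomial (Fin n) K) (hg : g ∈ supported K ({x, y}ᶜ : Set (Fin n))) :
    pc x y a b (g * (X x ^ a' * X y ^ b')) = if a' = a ∧ b' = b then g else 0 := by
  classical
  have hX : (X x ^ a' * X y ^ b' : MvPolynomial (Fin n) K) =
      monomial (Finsupp.single x a' + Finsupp.single y b') 1 := by
    rw [X_pow_eq_monomial, X_pow_eq_monomial, monomial_mul, one_mul]
  rw [hX]
  ext m
  rw [coeff_pc x y hxy, coeff_mul_monomial', mul_one]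
  by_cases hm : m x = 0 ∧ m y = 0
  · rw [if_pos hm]
    by_cases hab : a' = a ∧ b' = b
    · obtain ⟨rfl, rfl⟩ := hab
      have hle : Finsupp.single x a' + Finsupp.single y b' ≤
          m + Finsupp.single x a' + Finsupp.single y b' := by
        rw [add_assoc]
        exact le_add_self
      rw [if_pos hle, if_pos (And.intro rfl rfl)]
      congr 1
      rw [add_assoc, add_tsub_cancel_right]
    · rw [if_neg hab, coeff_zero]
      split_ifs with hle
      · refine coeff_supp hg _ ?_
        have h1 := hle x
        have h2 := hle y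
        simp only [Finsupp.coe_add, Pi.add_apply, Finsupp.single_apply, hm.1, hm.2, if_true,
          if_neg hxy, if_neg hxy.symm, Finsupp.coe_tsub, Pi.sub_apply] at h1 h2 ⊢
        omega
      · rfl
  · rw [if_neg hm]
    have h0 : coeff m g = 0 := coeff_supp hg m (by
      by_contra h
      push Not at h
      exact hm h)
    split_ifs
    · exact h0.symm
    · rw [coeff_zero]

theorem mg_pc {K : Type*} [Field K] {n : ℕ} (c : ℕ → K) (r : ℕ) (x y x' y' : Fin n)
    (hxy : x ≠ y) (h1 : x ≠ x') (h2 : x ≠ y') (h3 : y ≠ x') (h4 : y ≠ y') (hxy' : x' ≠ y')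
    (a b : ℕ) (f : MvPolynomial (Fin n) K) :
    mg c r x' y' (pc x y a b f) = pc x y a b (mg c r x' y' f) := by
  classical
  have hXx : mg c r x' y' (X x) = X x := by
    unfold mg ex
    rw [aeval_X, if_neg h1, if_neg h2]
  have hXy : mg c r x' y' (X y) = X y := by
    unfold mg ex
    rw [aeval_X, if_neg h3, if_neg h4]
  have hsup : supported K ({x, y}ᶜ : Set (Fin n)) ≤
      (supported K ({x, y}ᶜ : Set (Fin n))).comap (mg c r x' y') := by
    conv_lhs => rw [supported_eq_adjoin_X]
    apply Algebra.adjoin_le
    rintro _ ⟨i, hi, rfl⟩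
    rw [SetLike.mem_coe, Subalgebra.mem_comap]
    unfold mg
    rw [aeval_X]
    have hx' : (X x' : MvPolynomial (Fin n) K) ∈ supported K ({x, y}ᶜ : Set (Fin n)) := by
      rw [supported_eq_adjoin_X]
      exact Algebra.subset_adjoin ⟨x', by simp [h1.symm, h3.symm], rfl⟩
    have hC : ∀ j, (C (c j) : MvPolynomial (Fin n) K) ∈ supported K ({x, y}ᶜ : Set (Fin n)) :=
      fun j => Subalgebra.algebraMap_mem _ _
    unfold ex
    split_ifs
    · unfold cA
      exact Subalgebra.prod_mem _ fun j _ => Subalgebra.add_mem _ hx' (hC j)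
    · unfold cB
      exact Subalgebra.prod_mem _ fun j _ =>
        Subalgebra.pow_mem _ (Subalgebra.add_mem _ hx' (hC j)) _
    · rw [supported_eq_adjoin_X]
      exact Algebra.subset_adjoin ⟨i, hi, rfl⟩
  induction f using MvPolynomial.induction_on' with
  | monomial m u =>
    set m' := (m.erase x).erase y with hm'
    have hm : monomial m u = (monomial m' u : MvPolynomial (Fin n) K) *
        (X x ^ m x * X y ^ m y) := by
      rw [X_pow_eq_monomial, X_pow_eq_monomial, monomial_mul, monomial_mul, one_mul, mul_one]
      have hmm : m = m' + (Finsupp.single x (m x) + Finsupp.single y (m y)) := by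
        ext i
        by_cases hiy : i = y
        · subst hiy
          simp [hm', hxy]
        · by_cases hix : i = x
          · subst hix
            simp [hm', Ne.symm hiy, Finsupp.erase_ne hiy]
          · simp [hm', Ne.symm hix, Ne.symm hiy, Finsupp.erase_ne hiy, Finsupp.erase_ne hix]
      rw [← hmm]
    have hg : (monomial m' u : MvPolynomial (Fin n) K) ∈
        supported K ({x, y}ᶜ : Set (Fin n)) := by
      rw [mem_supported]
      by_cases hu : u = 0
      · rw [hu, monomial_zero, vars_0]
        simp
      · rw [vars_monomial hu]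
        intro i hi
        rw [Finset.mem_coe, Finsupp.mem_support_iff] at hi
        intro hi'
        rcases hi' with rfl | rfl
        · apply hi
          rw [hm', Finsupp.erase_ne hxy, Finsupp.erase_same]
        · apply hi
          rw [hm', Finsupp.erase_same]
    have hg' : mg c r x' y' (monomial m' u) ∈ supported K ({x, y}ᶜ : Set (Fin n)) := hsup hg
    have h5 := pc_mul x y hxy a b (m x) (m y) (mg c r x' y' (monomial m' u)) hg'
    rw [hm, pc_mul x y hxy _ _ _ _ _ hg, map_mul, map_mul, map_pow, map_pow, hXx, hXy, h5]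
    split_ifs
    · rfl
    · rw [map_zero]
  | add f g hf hg =>
    rw [pc_add x y hxy, map_add, map_add, pc_add x y hxy, hf, hg]

end Pool.Agent.MRG
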