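import Pool.Agent.MRG.Defs

/-!
Project MRG: the points for polynomials in `n` variables, of degree at most `d` in each variable, all
of whose flattenings have rank at most `w`.  Definitions.
-/

set_option autoImplicit false

namespace Pool.Agent.MRG

open MvPolynomial
open Pool.Agent.SPD (hitPt)

/-- The quotient in the low support lemma (a power of two). -/
def qq (w : ℕ) : ℕ := 2 ^ (KK w + 1)

/-- Number of adjunctions in the low support lemma. -/
def kq (w : ℕ) : ℕ := Nat.log 2 w / KK w + 1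

/-- Bound for the support. -/
def tau (w : ℕ) : ℕ := qq w * (Nat.log 2 w + 1)

/-- Dimension of the space of monomials for the base curve. -/
def s1 (d w : ℕ) : ℕ := (qq w * d) ^ kq w

/-- The exponents `1 + (D+1) i + (D+1) (nD+1) i^2`. -/
def wt (D n i : ℕ) : ℕ := 1 + (D + 1) * i + (D + 1) * (n * D + 1) * i ^ 2

theorem tau_pos (w : ℕ) : 0 < tau w := by unfold tau qq; positivity

theorem nc_pos (w : ℕ) : 0 < tau w ^ 2 := pow_pos (tau_pos w) 2

/-- The colour of `i`. -/
def colr {n : ℕ} (w p a : ℕ) (i : Fin n) : Fin (tau w ^ 2) :=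
  ⟨AOR.bucket p a (tau w ^ 2) (i : ℕ), Nat.mod_lt _ (nc_pos w)⟩

/-- The degree bound for the last stage. -/
def TT (n d w : ℕ) : ℕ :=
  n * d * wt (n * d) n n * ((sched w (tau w ^ 2)).map (fun q => 4 ^ q.1)).prod

/-- The point with the given parameters. -/
def point (n d w t p a : ℕ) (x : Fin (tau w ^ 2) → ℕ) (i : Fin n) : ℕ :=
  hitPt (n * s1 d w ^ 2) ((i : ℕ) + 1) t + x (colr w p a i) ^ wt (n * d) n (i : ℕ)

/-- The points. -/
def points (n d w : ℕ) : Finset (Fin n → ℕ) :=
  (Finset.range (n * d * (n * s1 d w ^ 2) + 1) ×ˢ (Finset.range (2 * n + 1) ×ˢ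
    (Finset.range (2 * n + 1) ×ˢ
      pts (fun j => j + 1) (TT n d w) (sched w (tau w ^ 2)) (List.finRange (tau w ^ 2))))).image
    (fun q => point n d w q.1 q.2.1 q.2.2.1 q.2.2.2)

end Pool.Agent.MRG
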