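import Pool.Agent.MRG.Row
import Pool.Agent.MRG.Pc

/-!
MODULE MRG-Tri.  Block triangular flattenings.
-/

set_option autoImplicit false

namespace Pool.Agent.MRG

open MvPolynomial

/-- shift in the variable `y` by `t` -/
private noncomputable def tri_pi (K : Type*) [Field K] {n : ℕ} (y : Fin n) (t : ℕ) :
    ((Fin n →₀ ℕ) → K) →ₗ[K] ((Fin n →₀ ℕ) → K) where
  toFun v := fun β => if β y = 0 then v (β + Finsupp.single y t) else 0
  map_add' u v := by
    funext β
    show (if β y = 0 then (u + v) (β + Finsupp.single y t) else 0) =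
      (if β y = 0 then u (β + Finsupp.single y t) else 0) +
        (if β y = 0 then v (β + Finsupp.single y t) else 0)
    split_ifs
    · rfl
    · rw [add_zero]
  map_smul' c u := by
    funext β
    show (if β y = 0 then (c • u) (β + Finsupp.single y t) else 0) =
      c * (if β y = 0 then u (β + Finsupp.single y t) else 0)
    split_ifs
    · rfl
    · rw [mul_zero]

private theorem tri_pi_apply {K : Type*} [Field K] {n : ℕ} (y : Fin n) (t : ℕ)
    (v : (Fin n →₀ ℕ) → K) (β : Fin n →₀ ℕ) :
    tri_pi K y t v β = if β y = 0 then v (β + Finsupp.single y t) else 0 := rfl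

/-- the span of the rows with exponent `a` at `x` -/
private noncomputable def tri_V {K : Type*} [Field K] {n : ℕ} (S : Finset (Fin n)) (x : Fin n)
    (f : MvPolynomial (Fin n) K) (a : ℕ) : Submodule K ((Fin n →₀ ℕ) → K) :=
  Submodule.span K (row S f '' {α | α x = a})

private theorem tri_V_le {K : Type*} [Field K] {n : ℕ} (S : Finset (Fin n)) (x : Fin n)
    (f : MvPolynomial (Fin n) K) (a : ℕ) : tri_V S x f a ≤ Rsp S f :=
  Submodule.span_mono (Set.image_subset_range _ _)

private theorem tri_kill {K : Type*} [Field K] {n : ℕ} (S : Finset (Fin n)) (x y : Fin n)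
    (hx : x ∈ S) (hy : y ∉ S) (f : MvPolynomial (Fin n) K) (a b : ℕ)
    (h : ∀ m ∈ f.support, ¬ (m x = a ∧ m y = b)) :
    tri_V S x f a ≤ LinearMap.ker (tri_pi K y b) := by
  unfold tri_V
  rw [Submodule.span_le]
  rintro _ ⟨α, hα, rfl⟩
  have hα' : α x = a := hα
  show tri_pi K y b (row S f α) = 0
  funext β
  rw [tri_pi_apply]
  show (if β y = 0 then row S f α (β + Finsupp.single y b) else 0) = 0
  by_cases hβ : β y = 0
  · rw [if_pos hβ]
    show coeff (α.filter (· ∈ S) + (β + Finsupp.single y b).filter (· ∉ S)) f = 0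
    by_contra hc
    refine h _ (mem_support_iff.2 hc) ⟨?_, ?_⟩
    · rw [Finsupp.add_apply, Finsupp.filter_apply_pos (· ∈ S) α hx,
        Finsupp.filter_apply_neg (· ∉ S) (β + Finsupp.single y b) (by simpa using hx), add_zero,
        hα']
    · rw [Finsupp.add_apply, Finsupp.filter_apply_neg (· ∈ S) α hy,
        Finsupp.filter_apply_pos (· ∉ S) (β + Finsupp.single y b) hy, zero_add,
        Finsupp.add_apply, hβ, Finsupp.single_eq_same, zero_add]
  · rw [if_neg hβ]

private theorem tri_map {K : Type*} [Field K] {n : ℕ} (S : Finset (Fin n)) (x y : Fin n)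
    (hx : x ∈ S) (hy : y ∉ S) (f : MvPolynomial (Fin n) K) (a b : ℕ) :
    Rsp S (pc x y a b f) ≤ (tri_V S x f a).map (tri_pi K y b) := by
  have hxy : x ≠ y := by
    rintro rfl
    exact hy hx
  unfold Rsp
  rw [Submodule.span_le]
  rintro _ ⟨α, rfl⟩
  by_cases hα : α x = 0
  · refine ⟨row S f (α + Finsupp.single x a), Submodule.subset_span ⟨α + Finsupp.single x a, ?_,
      rfl⟩, ?_⟩
    · show (α + Finsupp.single x a) x = a
      rw [Finsupp.add_apply, hα, Finsupp.single_eq_same, zero_add]
    · funext β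
      rw [tri_pi_apply]
      show (if β y = 0 then coeff ((α + Finsupp.single x a).filter (· ∈ S) +
        (β + Finsupp.single y b).filter (· ∉ S)) f else 0) =
          coeff (α.filter (· ∈ S) + β.filter (· ∉ S)) (pc x y a b f)
      rw [coeff_pc x y hxy]
      have h1 : (α.filter (· ∈ S) + β.filter (· ∉ S)) x = 0 := by
        rw [Finsupp.add_apply, Finsupp.filter_apply_pos (· ∈ S) α hx,
          Finsupp.filter_apply_neg (· ∉ S) β (by simpa using hx), add_zero, hα]
      have h2 : (α.filter (· ∈ S) + β.filter (· ∉ S)) y = β y := by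
        rw [Finsupp.add_apply, Finsupp.filter_apply_neg (· ∈ S) α hy,
          Finsupp.filter_apply_pos (· ∉ S) β hy, zero_add]
      have h3 : (α + Finsupp.single x a).filter (· ∈ S) =
          α.filter (· ∈ S) + Finsupp.single x a := by
        rw [Finsupp.filter_add, Finsupp.filter_single_of_pos (· ∈ S) hx]
      have h4 : (β + Finsupp.single y b).filter (· ∉ S) =
          β.filter (· ∉ S) + Finsupp.single y b := by
        rw [Finsupp.filter_add, Finsupp.filter_single_of_pos (· ∉ S) hy]
      rw [h1, h2, h3, h4]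
      by_cases hβ : β y = 0
      · rw [if_pos hβ, if_pos ⟨rfl, hβ⟩]
        congr 1
        abel
      · rw [if_neg hβ, if_neg (fun h => hβ h.2)]
  · have h0 : row S (pc x y a b f) α = 0 := by
      funext β
      show coeff (α.filter (· ∈ S) + β.filter (· ∉ S)) (pc x y a b f) = 0
      rw [coeff_pc x y hxy, if_neg]
      rintro ⟨h, _⟩
      rw [Finsupp.add_apply, Finsupp.filter_apply_pos (· ∈ S) α hx,
        Finsupp.filter_apply_neg (· ∉ S) β (by simpa using hx), add_zero] at h
      exact hα h
    rw [h0]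
    exact Submodule.zero_mem _

private theorem tri_abs {K M : Type*} [Field K] [AddCommGroup M] [Module K M]
    (W V : Submodule K M) (hfin : Module.Finite K (W ⊔ V : Submodule K M)) (φ : M →ₗ[K] M)
    (hW : W ≤ LinearMap.ker φ) :
    Module.finrank K W + Module.finrank K (V.map φ) ≤
      Module.finrank K (W ⊔ V : Submodule K M) := by
  have h1 := LinearMap.finrank_range_add_finrank_ker (φ.domRestrict (W ⊔ V))
  have h2 : V.map φ ≤ LinearMap.range (φ.domRestrict (W ⊔ V)) := by
    rintro _ ⟨v, hv, rfl⟩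
    exact ⟨⟨v, Submodule.mem_sup_right hv⟩, rfl⟩
  have h3 := Submodule.finrank_mono h2
  have h4 : W.comap (W ⊔ V).subtype ≤ LinearMap.ker (φ.domRestrict (W ⊔ V)) := by
    intro v hv
    exact hW hv
  have h5 := Submodule.finrank_mono h4
  have h6 : Module.finrank K (W.comap (W ⊔ V).subtype) = Module.finrank K W :=
    (Submodule.comapSubtypeEquivOfLe (le_sup_left : W ≤ W ⊔ V)).finrank_eq
  omega

theorem tri {K : Type*} [Field K] {n : ℕ} (S : Finset (Fin n)) (x y : Fin n) (hx : x ∈ S)
    (hy : y ∉ S) (f : MvPolynomial (Fin n) K) (r : ℕ) (a b : Fin (r + 1) → ℕ) (D : ℕ)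
    (hzero : ∀ i j, i < j → ∀ m ∈ f.support, ¬ (m x = a i ∧ m y = b j))
    (hD : ∀ i, D ≤ Module.finrank K (Rsp S (pc x y (a i) (b i) f))) :
    (r + 1) * D ≤ Module.finrank K (Rsp S f) := by
  have hfin : Module.Finite K (Rsp S f) := finite_Rsp S f
  have hsub : ∀ W : Submodule K ((Fin n →₀ ℕ) → K), W ≤ Rsp S f → Module.Finite K W :=
    fun W hW => Module.Finite.of_injective (Submodule.inclusion hW)
      (Submodule.inclusion_injective hW)
  have key : ∀ k, k ≤ r + 1 → ∃ W : Submodule K ((Fin n →₀ ℕ) → K), W ≤ Rsp S f ∧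
      (∀ j : Fin (r + 1), k ≤ (j : ℕ) → W ≤ LinearMap.ker (tri_pi K y (b j))) ∧
      k * D ≤ Module.finrank K W := by
    intro k
    induction k with
    | zero =>
      intro _
      exact ⟨⊥, bot_le, fun _ _ => bot_le, by simp⟩
    | succ k ih =>
      intro hk
      obtain ⟨W, h1, h2, h3⟩ := ih (by omega)
      have hV : tri_V S x f (a ⟨k, by omega⟩) ≤ Rsp S f := tri_V_le S x f _
      refine ⟨W ⊔ tri_V S x f (a ⟨k, by omega⟩), sup_le h1 hV, ?_, ?_⟩
      · intro j hj
        refine sup_le (h2 j (by omega)) ?_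
        exact tri_kill S x y hx hy f _ _ (hzero _ _ (by
          show k < (j : ℕ)
          omega))
      · have h4 := tri_abs W (tri_V S x f (a ⟨k, by omega⟩)) (hsub _ (sup_le h1 hV))
          (tri_pi K y (b ⟨k, by omega⟩)) (h2 ⟨k, by omega⟩ le_rfl)
        have hfV : Module.Finite K (tri_V S x f (a ⟨k, by omega⟩)) := hsub _ hV
        have h5 := Submodule.finrank_mono
          (tri_map S x y hx hy f (a ⟨k, by omega⟩) (b ⟨k, by omega⟩))
        have h6 := hD ⟨k, by omega⟩
        have h7 : (k + 1) * D = k * D + D := by ring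
        rw [h7]
        omega
  obtain ⟨W, h1, -, h3⟩ := key (r + 1) le_rfl
  exact h3.trans (Submodule.finrank_mono h1)

end Pool.Agent.MRG
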