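import Pool.Agent.MRG.HullF
import Pool.Agent.MRG.Tri

/-!
MODULE MRG-Rank (est. 0.7 h).  Several disjoint pairs each of which kills `f`: the rank is at least
`(r+1)^(number of pairs)`.

PLAN.  Induction on `P`.  `P = []`: `f ≠ 0` has a nonzero row (`1 ≤ finrank`: take `m ∈ f.support`,
`row S f m m = coeff m f ≠ 0`, `finite_Rsp`).  `P = p :: P'`: `vertices` for `p` gives `a`, `b`; for
every `i` the polynomial `pc p.1 p.2 (a i) (b i) f` is not `0` (`pc_ne_zero`) and is killed by the
pairs in `P'` (`mg_pc`), so the induction hypothesis gives the dimension `(r+1)^P'.length`; `tri`.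
-/

set_option autoImplicit false

namespace Pool.Agent.MRG

open MvPolynomial

private theorem rank_one {K : Type*} [Field K] {n : ℕ} (S : Finset (Fin n))
    (f : MvPolynomial (Fin n) K) (hf : f ≠ 0) : 1 ≤ Module.finrank K (Rsp S f) := by
  have hfin : Module.Finite K (Rsp S f) := finite_Rsp S f
  obtain ⟨m, hm⟩ := MvPolynomial.support_nonempty.2 hf
  have hne : row S f m ≠ 0 := by
    intro h
    have h1 : row S f m m = 0 := by rw [h]; rfl
    have h2 : (m.filter (· ∈ S) + m.filter (fun i => i ∉ S)) = m :=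
      Finsupp.filter_add_filter_not m (· ∈ S)
    unfold row at h1
    rw [h2] at h1
    exact (mem_support_iff.1 hm) h1
  rw [Nat.one_le_iff_ne_zero]
  intro h0
  have hbot : Rsp S f = ⊥ := Submodule.finrank_eq_zero.1 h0
  have hmem : row S f m ∈ Rsp S f := Submodule.subset_span ⟨m, rfl⟩
  rw [hbot, Submodule.mem_bot] at hmem
  exact hne hmem

theorem rank_pairs {K : Type*} [Field K] {n : ℕ} (c : ℕ → K) (r : ℕ)
    (hc : Set.InjOn c (Finset.range r : Set ℕ)) (S : Finset (Fin n)) :
    ∀ (P : List (Fin n × Fin n)) (f : MvPolynomial (Fin n) K), f ≠ 0 →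
      (P.map Prod.fst ++ P.map Prod.snd).Nodup → (∀ p ∈ P, p.1 ∈ S ∧ p.2 ∉ S) →
      (∀ p ∈ P, mg c r p.1 p.2 f = 0) →
      (r + 1) ^ P.length ≤ Module.finrank K (Rsp S f) := by
  intro P
  induction P with
  | nil =>
    intro f hf _ _ _
    simpa using rank_one S f hf
  | cons p P ih =>
    intro f hf hnd hS hk
    have hpS := hS p (List.mem_cons_self ..)
    have hp12 : p.1 ≠ p.2 := fun h => hpS.2 (h ▸ hpS.1)
    obtain ⟨a, b, hab, hn⟩ := vertices c r hc p.1 p.2 hp12 f hf (hk p (List.mem_cons_self ..))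
    have hnd' := List.nodup_append.1 hnd
    have hd1 : (p.1 :: P.map Prod.fst).Nodup := by simpa using hnd'.1
    have hd2 : (p.2 :: P.map Prod.snd).Nodup := by simpa using hnd'.2.1
    have h1 := List.nodup_cons.1 hd1
    have h2 := List.nodup_cons.1 hd2
    have hdis : (P.map Prod.fst ++ P.map Prod.snd).Nodup := by
      refine List.nodup_append.2 ⟨h1.2, h2.2, fun x hx y hy => ?_⟩
      refine hnd'.2.2 x ?_ y ?_
      · simpa using Or.inr (by simpa using hx)
      · simpa using Or.inr (by simpa using hy)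
    have hlen : (r + 1) ^ (p :: P).length = (r + 1) * (r + 1) ^ P.length := by
      rw [List.length_cons, pow_succ]
      ring
    rw [hlen]
    refine tri S p.1 p.2 hpS.1 hpS.2 f r a b _ hn fun i => ?_
    refine ih _ (pc_ne_zero p.1 p.2 hp12 _ _ f (hab i)) hdis
      (fun q hq => hS q (List.mem_cons_of_mem _ hq)) fun q hq => ?_
    have hqS := hS q (List.mem_cons_of_mem _ hq)
    have hq12 : q.1 ≠ q.2 := fun h => hqS.2 (h ▸ hqS.1)
    have hq1 : q.1 ∈ P.map Prod.fst := List.mem_map_of_mem hq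
    have hq2 : q.2 ∈ P.map Prod.snd := List.mem_map_of_mem hq
    have e1 : p.1 ≠ q.1 := fun h => h1.1 (h ▸ hq1)
    have e2 : p.1 ≠ q.2 := fun h => hqS.2 (h ▸ hpS.1)
    have e3 : p.2 ≠ q.1 := fun h => hpS.2 (h ▸ hqS.1)
    have e4 : p.2 ≠ q.2 := fun h => h2.1 (h ▸ hq2)
    rw [mg_pc c r p.1 p.2 q.1 q.2 hp12 e1 e2 e3 e4 hq12, hk q (List.mem_cons_of_mem _ hq)]
    unfold pc
    simp

end Pool.Agent.MRG
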