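import Pool.Agent.MRG.Defs
import Pool.Agent.AOI.Arr

/-!
MODULE MRG-Row (est. 0.7 h).  The row space of a flattening is finite-dimensional, and of dimension
at most `w` if `Cut w S f`.

PLAN.  `finite_Rsp`: `row S f α` is `0` unless `α.filter (· ∈ S)` is one of the finitely many
`m.filter (· ∈ S)`, `m ∈ f.support`, and it depends on `α.filter (· ∈ S)` only; so `range (row S f)`
is a finite set (`Set.Finite.subset`, image of a finset together with `0`) and
`Module.Finite.span_of_finite`.  `finrank_Rsp_le`: `f = ∑_k g_k h_k` with `(g k).vars ⊆ S`,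
`(h k).vars ⊆ Sᶜ`; `coeff (α_S + β_(S^c)) (g_k h_k) = coeff α_S (g_k) * coeff β_(S^c) (h_k)`
(`Pool.Agent.AOI.coeff_mul_disj` in `Pool/Agent/AOI/Arr.lean` may help), so `row S f α` is in the span
of the `w` functions `β ↦ coeff (β.filter (· ∉ S)) (h k)`; `finrank_range_le_card`/`finrank_span_le_card`.
-/

set_option autoImplicit false

namespace Pool.Agent.MRG

open MvPolynomial
open Pool.Agent.AOI (Cut Cuts)

private theorem fil_fil {n : ℕ} (S : Finset (Fin n)) (α : Fin n →₀ ℕ) :
    (α.filter (· ∈ S)).filter (· ∈ S) = α.filter (· ∈ S) := by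
  ext i
  by_cases h : i ∈ S
  · rw [Finsupp.filter_apply_pos _ _ h]
  · rw [Finsupp.filter_apply_neg _ _ h, Finsupp.filter_apply_neg _ _ h]

private theorem fil_not {n : ℕ} (S : Finset (Fin n)) (β : Fin n →₀ ℕ) :
    (β.filter (fun i => i ∉ S)).filter (fun i => i ∈ S) = 0 := by
  ext i
  by_cases h : i ∈ S
  · rw [Finsupp.filter_apply_pos _ _ h, Finsupp.filter_apply_neg (fun i => i ∉ S) _ (not_not.2 h)]
    rfl
  · rw [Finsupp.filter_apply_neg _ _ h]
    rfl

theorem finite_Rsp {K : Type*} [Field K] {n : ℕ} (S : Finset (Fin n))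
    (f : MvPolynomial (Fin n) K) : Module.Finite K (Rsp S f) := by
  classical
  unfold Rsp
  apply Module.Finite.span_of_finite
  refine Set.Finite.subset (Finset.finite_toSet
    (insert 0 ((f.support.image (fun m => m.filter (· ∈ S))).image (row S f)))) ?_
  rintro _ ⟨α, rfl⟩
  rw [Finset.mem_coe, Finset.mem_insert]
  by_cases h : α.filter (· ∈ S) ∈ f.support.image (fun m => m.filter (· ∈ S))
  · right
    refine Finset.mem_image.2 ⟨_, h, ?_⟩
    funext β
    unfold row
    rw [fil_fil]
  · left
    funext β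
    unfold row
    rw [Pi.zero_apply]
    by_contra hc
    apply h
    refine Finset.mem_image.2 ⟨_, mem_support_iff.2 hc, ?_⟩
    rw [Finsupp.filter_add, fil_fil, fil_not, add_zero]

theorem finrank_Rsp_le {K : Type*} [Field K] {n w : ℕ} (S : Finset (Fin n))
    (f : MvPolynomial (Fin n) K) (h : Cut w S f) : Module.finrank K (Rsp S f) ≤ w := by
  classical
  obtain ⟨g, k, hg, hk, rfl⟩ := h
  let r : Fin w → (Fin n →₀ ℕ) → K := fun j β => coeff (β.filter (· ∉ S)) (k j)
  have hrow : ∀ α, row S (∑ j, g j * k j) α = ∑ j, coeff (α.filter (· ∈ S)) (g j) • r j := by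
    intro α
    funext β
    simp only [row, r, Finset.sum_apply, Pi.smul_apply, smul_eq_mul]
    rw [coeff_sum]
    refine Finset.sum_congr rfl fun j _ => ?_
    refine AOI.coeff_mul_disj S _ _ (hg j) (hk j) _ _ ?_ ?_
    · intro i hi
      rw [Finsupp.support_filter, Finset.mem_filter] at hi
      exact hi.2
    · intro i hi
      rw [Finsupp.support_filter, Finset.mem_filter] at hi
      exact Finset.mem_compl.2 hi.2
  have hle : Rsp S (∑ j, g j * k j) ≤ Submodule.span K (Set.range r) := by
    unfold Rsp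
    rw [Submodule.span_le]
    rintro _ ⟨α, rfl⟩
    rw [hrow]
    exact Submodule.sum_mem _ fun j _ =>
      Submodule.smul_mem _ _ (Submodule.subset_span ⟨j, rfl⟩)
  have hfin : Module.Finite K (Submodule.span K (Set.range r)) :=
    Module.Finite.span_of_finite K (Set.finite_range r)
  refine (Submodule.finrank_mono hle).trans ?_
  have h1 : Set.finrank K (Set.range r) ≤ w := by
    have h2 := finrank_range_le_card (R := K) (b := r)
    rwa [Fintype.card_fin] at h2
  exact h1

end Pool.Agent.MRG
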